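import Pool.Agent.Helper80.Hist.Defs

namespace Pool.Agent.Helper80.Hist

lemma Sub.trans {a b c : Bin} (h1 : Sub a b) (h2 : Sub b c) : Sub a c := by
  induction h2 with
  | refl => exact h1
  | left r _ ih => exact Sub.left r ih
  | right l _ ih => exact Sub.right l ih

lemma EmbE.mono {α : LT Unit} {b c : Bin} (h : EmbE α b) (hs : Sub b c) : EmbE α c := by
  obtain ⟨b', h1, h2⟩ := h
  exact ⟨b', h1.trans hs, h2⟩

lemma EmbR.toE {α : LT Unit} {b : Bin} (h : EmbR α b) : EmbE α b := ⟨b, Sub.refl b, h⟩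

/-! ### Growing trees -/

def Good (t : LT ℕ) : Prop := ∃ G P, GoodW t G P

/-- the growth step -/
def Grow : Prop := ∀ (fs : List Frame) (t : LT ℕ), Good (fill fs t) → prt fs = false →
  ∃ r w, Good (fill fs (.node r false false t (.leaf w)))

lemma Good.swap {fs : List Frame} {n : ℕ} {pl pr : Bool} {l r : LT ℕ}
    (h : Good (fill fs (.node n pl pr l r))) : Good (fill fs (.node n pr pl r l)) := by
  obtain ⟨G, P, h⟩ := h
  exact ⟨G, P, h.swap⟩

lemma shape_node (n : ℕ) (pl pr : Bool) (l r : LT ℕ) :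
    (LT.node n pl pr l r).shape = Bin.node l.shape r.shape := rfl

lemma unl_node (n : ℕ) (pl pr : Bool) (l r : LT ℕ) :
    (LT.node n pl pr l r).unl = LT.node () pl pr l.unl r.unl := rfl

theorem grow_leaf (hG : Grow) (b : Bin) : ∀ (fs : List Frame) (x : ℕ),
    Good (fill fs (.leaf x)) → prt fs = false → ∃ t', t'.shape = b ∧ Good (fill fs t') := by
  induction b with
  | leaf => intro fs x h _; exact ⟨.leaf x, rfl, h⟩
  | node l r ihl ihr =>
    intro fs x h hp
    obtain ⟨n, w, h1⟩ := hG fs (.leaf x) h hp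
    obtain ⟨t1, s1, h2⟩ := ihl (⟨n, false, false, .leaf w⟩ :: fs) x h1 rfl
    have h3 : Good (fill fs (.node n false false t1 (.leaf w))) := h2
    obtain ⟨t2, s2, h4⟩ := ihr (⟨n, false, false, t1⟩ :: fs) w h3.swap rfl
    have h5 : Good (fill fs (.node n false false t2 t1)) := h4
    exact ⟨_, by rw [shape_node, s1, s2], h5.swap⟩

theorem climb (hG : Grow) {b' b : Bin} (hs : Sub b' b) : ∀ (fs : List Frame) (t : LT ℕ),
    t.shape = b' → Good (fill fs t) → prt fs = false → ∃ t', t'.shape = b ∧ Good (fill fs t') := by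
  induction hs with
  | refl => intro fs t h1 h2 _; exact ⟨t, h1, h2⟩
  | @left l r0 _ ih =>
    intro fs t h1 h2 hp
    obtain ⟨n, w, h3⟩ := hG fs t h2 hp
    obtain ⟨t1, s1, h4⟩ := ih (⟨n, false, false, .leaf w⟩ :: fs) t h1 h3 rfl
    have h5 : Good (fill fs (.node n false false t1 (.leaf w))) := h4
    obtain ⟨t2, s2, h6⟩ := grow_leaf hG r0 (⟨n, false, false, t1⟩ :: fs) w h5.swap rfl
    have h7 : Good (fill fs (.node n false false t2 t1)) := h6
    exact ⟨_, by rw [shape_node, s1, s2], h7.swap⟩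
  | @right r l0 _ ih =>
    intro fs t h1 h2 hp
    obtain ⟨n, w, h3⟩ := hG fs t h2 hp
    obtain ⟨t1, s1, h4⟩ := ih (⟨n, false, false, .leaf w⟩ :: fs) t h1 h3 rfl
    have h5 : Good (fill fs (.node n false false t1 (.leaf w))) := h4
    obtain ⟨t2, s2, h6⟩ := grow_leaf hG l0 (⟨n, false, false, t1⟩ :: fs) w h5.swap rfl
    have h7 : Good (fill fs (.node n false false t2 t1)) := h6
    exact ⟨_, by rw [shape_node, s1, s2], h7⟩

theorem grow_R (hG : Grow) (t : LT ℕ) : ∀ (fs : List Frame) (b : Bin),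
    Good (fill fs t) → EmbR t.unl b → ∃ t', t'.shape = b ∧ Good (fill fs t') := by
  induction t with
  | leaf n => intro fs b h hb; exact ⟨.leaf n, hb.symm, h⟩
  | node n pl pr l r ihl ihr =>
    intro fs b h hb
    have key : ∀ (fs : List Frame) (p : Bool) (b : Bin) (s : LT ℕ), prt fs = p →
        (∀ (fs : List Frame) (b : Bin), Good (fill fs s) → EmbR s.unl b →
          ∃ t', t'.shape = b ∧ Good (fill fs t')) →
        (if p then EmbR s.unl b else ∃ b', Sub b' b ∧ EmbR s.unl b') → Good (fill fs s) →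
        ∃ t', t'.shape = b ∧ Good (fill fs t') := by
      intro fs p b s hp ih he hg
      cases p with
      | true => exact ih fs b hg (by simpa using he)
      | false =>
        obtain ⟨b', hs, he⟩ : ∃ b', Sub b' b ∧ EmbR s.unl b' := by simpa using he
        obtain ⟨t', s', h'⟩ := ih fs b' hg he
        exact climb hG hs fs t' s' h' hp
    obtain ⟨l', r', hb, hl, hr⟩ := hb
    obtain ⟨t1, s1, h1⟩ := key (⟨n, pl, pr, r⟩ :: fs) pl l' l rfl ihl hl h
    have h2 : Good (fill fs (.node n pl pr t1 r)) := h1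
    obtain ⟨t2, s2, h3⟩ := key (⟨n, pr, pl, t1⟩ :: fs) pr r' r rfl ihr hr h2.swap
    have h4 : Good (fill fs (.node n pr pl t2 t1)) := h3
    rcases hb with rfl | rfl
    · exact ⟨_, by rw [shape_node, s1, s2], h4.swap⟩
    · exact ⟨_, by rw [shape_node, s1, s2], h4⟩

theorem grow_E (hG : Grow) {t : LT ℕ} {b : Bin} (h : Good t) (hb : EmbE t.unl b) :
    ∃ t', t'.shape = b ∧ Good t' := by
  obtain ⟨b', hs, hb⟩ := hb
  obtain ⟨t', s', h'⟩ := grow_R hG t [] b' h hb
  exact climb hG hs [] t' s' h' rfl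

/-! ### Patterns -/

def pCh : LT Unit := .node () true true (.leaf ()) (.leaf ())

def pO : ℕ → LT Unit
  | 0 => .leaf ()
  | i + 1 => .node () true true pCh (pO i)

def pD : LT Unit := .node () true true pCh pCh

def pR (i j : ℕ) : LT Unit := .node () true true (pO i) (pO j)

def pS : ℕ → LT Unit
  | 0 => .node () true false pCh (.leaf ())
  | k + 1 => .node () true true pCh (pS k)

def pieces : List (LT Unit) :=
  [pD, pR 0 1, pR 0 2, pR 0 3, pR 1 1, pR 1 2, pR 1 3, pR 2 2, pR 2 3, pR 3 3, pS 3]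

def ch : Bin := .node .leaf .leaf

lemma emb_leaf {b : Bin} : EmbR (.leaf ()) b ↔ b = .leaf := Iff.rfl

lemma emb_tt {l r : LT Unit} {b : Bin} : EmbR (.node () true true l r) b ↔
    ∃ l' r', (b = .node l' r' ∨ b = .node r' l') ∧ EmbR l l' ∧ EmbR r r' := by
  simp [EmbR]

lemma emb_tf {l r : LT Unit} {b : Bin} : EmbR (.node () true false l r) b ↔
    ∃ l' r', (b = .node l' r' ∨ b = .node r' l') ∧ EmbR l l' ∧ EmbE r r' := by
  simp [EmbR, EmbE]

lemma emb_ff {l r : LT Unit} {b : Bin} : EmbR (.node () false false l r) b ↔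
    ∃ l' r', (b = .node l' r' ∨ b = .node r' l') ∧ EmbE l l' ∧ EmbE r r' := by
  simp [EmbR, EmbE]

lemma emb_ch {b : Bin} : EmbR pCh b ↔ b = ch := by
  rw [pCh, emb_tt]
  simp only [emb_leaf, ch]
  constructor
  · rintro ⟨l, r, h | h, rfl, rfl⟩ <;> exact h
  · rintro rfl; exact ⟨_, _, Or.inl rfl, rfl, rfl⟩

lemma embO_S : ∀ (k : ℕ) (b : Bin), EmbR (pO (k + 1)) b → EmbR (pS k) b
  | 0, b, h => by
    rw [pO, emb_tt] at h
    rw [pS, emb_tf]
    obtain ⟨l, r, h1, h2, h3⟩ := h
    exact ⟨l, r, h1, h2, EmbR.toE h3⟩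
  | k + 1, b, h => by
    rw [pO, emb_tt] at h
    rw [pS, emb_tt]
    obtain ⟨l, r, h1, h2, h3⟩ := h
    exact ⟨l, r, h1, h2, embO_S k r h3⟩

lemma embO_n : ∀ (i : ℕ) (b : Bin), EmbR (pO i) b → b.n = 2 * i + 1
  | 0, b, h => by
    rw [pO, emb_leaf] at h
    subst h; rfl
  | i + 1, b, h => by
    rw [pO, emb_tt] at h
    obtain ⟨l, r, h1, h2, h3⟩ := h
    have h4 := embO_n i r h3
    rw [emb_ch] at h2
    subst h2
    rcases h1 with rfl | rfl
    · simp only [Bin.n, ch, h4]; ring
    · simp only [Bin.n, ch, h4]; ring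

lemma sub_l (l r : Bin) : Sub l (.node l r) := Sub.left r (Sub.refl l)
lemma sub_r (l r : Bin) : Sub r (.node l r) := Sub.right l (Sub.refl r)

lemma embR_comm {l r : LT Unit} {b c : Bin} (h : EmbR (.node () true true l r) (.node b c)) :
    EmbR (.node () true true l r) (.node c b) := by
  rw [emb_tt] at h ⊢
  obtain ⟨l', r', h1, h2⟩ := h
  refine ⟨l', r', ?_, h2⟩
  rcases h1 with h1 | h1
  · injection h1 with a b; subst a; subst b; exact Or.inr rfl
  · injection h1 with a b; subst a; subst b; exact Or.inl rfl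

lemma mem_pieces {i j : ℕ} (hj : j ≤ 3) (h : i ≤ j) (h0 : ¬ (i = 0 ∧ j = 0)) :
    pR i j ∈ pieces := by
  interval_cases j <;> interval_cases i <;> simp_all [pieces]

theorem cls (b : Bin) : (∃ i ≤ 3, EmbR (pO i) b) ∨ b = ch ∨ ∃ X ∈ pieces, EmbE X b := by
  induction b with
  | leaf => exact Or.inl ⟨0, by norm_num, rfl⟩
  | node l r ihl ihr =>
    have hOC : ∀ (i : ℕ) (r : Bin), i ≤ 3 → EmbR (pO i) r →
        (∃ i ≤ 3, EmbR (pO i) (.node ch r)) ∨ ∃ X ∈ pieces, EmbE X (.node ch r) := by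
      intro i r hi h
      have h' : EmbR (pO (i + 1)) (.node ch r) := by
        rw [pO, emb_tt]; exact ⟨ch, r, Or.inl rfl, emb_ch.mpr rfl, h⟩
      rcases Nat.lt_or_ge i 3 with h3 | h3
      · exact Or.inl ⟨i + 1, h3, h'⟩
      · have : i = 3 := le_antisymm hi h3
        subst this
        exact Or.inr ⟨pS 3, by simp [pieces], EmbR.toE (embO_S 3 _ h')⟩
    rcases ihl with ⟨i, hi, hl⟩ | hl | ⟨X, hX, hl⟩
    · rcases ihr with ⟨j, hj, hr⟩ | hr | ⟨X, hX, hr⟩
      · have e1 : EmbR (pR i j) (.node l r) := by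
          rw [pR, emb_tt]; exact ⟨l, r, Or.inl rfl, hl, hr⟩
        have e2 : EmbR (pR j i) (.node l r) := by
          rw [pR, emb_tt]; exact ⟨r, l, Or.inr rfl, hr, hl⟩
        by_cases h0 : i = 0 ∧ j = 0
        · obtain ⟨rfl, rfl⟩ := h0
          rw [pO, emb_leaf] at hl hr
          subst hl; subst hr; exact Or.inr (Or.inl rfl)
        · rcases le_total i j with h1 | h1
          · exact Or.inr (Or.inr ⟨_, mem_pieces hj h1 h0, EmbR.toE e1⟩)
          · exact Or.inr (Or.inr ⟨_, mem_pieces hi h1 (fun h => h0 h.symm), EmbR.toE e2⟩)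
      · subst hr
        rcases hOC i l hi hl with ⟨k, hk, h⟩ | ⟨X, hX, b', hs, h⟩
        · cases k with
          | zero => exact absurd h (by simp [pO, emb_leaf])
          | succ k => exact Or.inl ⟨k + 1, hk, embR_comm h⟩
        · -- recompute
          have h' : EmbR (pO (i + 1)) (.node l ch) := by
            rw [pO, emb_tt]; exact ⟨ch, l, Or.inr rfl, emb_ch.mpr rfl, hl⟩
          rcases Nat.lt_or_ge i 3 with h3 | h3
          · exact Or.inl ⟨i + 1, h3, h'⟩
          · have : i = 3 := le_antisymm hi h3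
            subst this
            exact Or.inr (Or.inr ⟨pS 3, by simp [pieces], EmbR.toE (embO_S 3 _ h')⟩)
      · exact Or.inr (Or.inr ⟨X, hX, hr.mono (sub_r l r)⟩)
    · rcases ihr with ⟨j, hj, hr⟩ | hr | ⟨X, hX, hr⟩
      · subst hl
        rcases hOC j r hj hr with h | h
        · exact Or.inl h
        · exact Or.inr (Or.inr h)
      · subst hl; subst hr
        refine Or.inr (Or.inr ⟨pD, by simp [pieces], EmbR.toE ?_⟩)
        rw [pD, emb_tt]
        exact ⟨ch, ch, Or.inl rfl, emb_ch.mpr rfl, emb_ch.mpr rfl⟩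
      · exact Or.inr (Or.inr ⟨X, hX, hr.mono (sub_r l r)⟩)
    · exact Or.inr (Or.inr ⟨X, hX, hl.mono (sub_l l r)⟩)

theorem cls8 (b : Bin) (h : 8 ≤ b.n) : ∃ X ∈ pieces, EmbE X b := by
  rcases cls b with ⟨i, hi, hb⟩ | rfl | h
  · have := embO_n i b hb; omega
  · simp only [ch, Bin.n] at h; omega
  · exact h

/-! ### Chains -/

def chain : List Bool → LT Unit → LT Unit
  | [], X => X
  | a :: ω, X => .node () false false (if a then pCh else .leaf ()) (chain ω X)

lemma has_leaf (b : Bin) : EmbE (.leaf ()) b := by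
  induction b with
  | leaf => exact ⟨.leaf, Sub.refl _, rfl⟩
  | node l r ihl _ => exact ihl.mono (sub_l l r)

lemma has_ch (b : Bin) (h : b ≠ .leaf) : EmbE pCh b := by
  induction b with
  | leaf => exact absurd rfl h
  | node l r ihl ihr =>
    by_cases hl : l = .leaf
    · by_cases hr : r = .leaf
      · subst hl; subst hr; exact EmbR.toE (emb_ch.mpr rfl)
      · exact (ihr hr).mono (sub_r l r)
    · exact (ihl hl).mono (sub_l l r)

/-- consecutive nodes with a leaf child -/
def Run : ℕ → Bin → Prop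
  | 0, _ => True
  | _ + 1, .leaf => False
  | j + 1, .node l r => (l = .leaf ∧ Run j r) ∨ (r = .leaf ∧ Run j l)

lemma Bin.n_pos (b : Bin) : 1 ≤ b.n := by
  induction b with
  | leaf => exact le_refl 1
  | node l r ihl ihr => simp only [Bin.n]; omega

lemma walk_down (M : ℕ) (hM : 1 ≤ M) : ∀ (j : ℕ) (b : Bin), 2 * M + j ≤ b.n →
    Run j b ∨ ∃ l r, (Sub (.node l r) b ∨ Sub (.node r l) b) ∧ l ≠ .leaf ∧ M ≤ r.n
  | 0, b, _ => Or.inl trivial
  | j + 1, .leaf, h => by simp only [Bin.n] at h; omega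
  | j + 1, .node l r, h => by
    simp only [Bin.n] at h
    by_cases hl : l = .leaf
    · subst hl
      simp only [Bin.n] at h
      rcases walk_down M hM j r (by omega) with h1 | ⟨l', r', h1, h2⟩
      · exact Or.inl (Or.inl ⟨rfl, h1⟩)
      · refine Or.inr ⟨l', r', ?_, h2⟩
        rcases h1 with h1 | h1
        · exact Or.inl (h1.trans (sub_r _ _))
        · exact Or.inr (h1.trans (sub_r _ _))
    · by_cases hr : r = .leaf
      · subst hr
        simp only [Bin.n] at h
        rcases walk_down M hM j l (by omega) with h1 | ⟨l', r', h1, h2⟩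
        · exact Or.inl (Or.inr ⟨rfl, h1⟩)
        · refine Or.inr ⟨l', r', ?_, h2⟩
          rcases h1 with h1 | h1
          · exact Or.inl (h1.trans (sub_l _ _))
          · exact Or.inr (h1.trans (sub_l _ _))
      · right
        rcases Nat.lt_or_ge r.n M with h1 | h1
        · exact ⟨r, l, Or.inr (Sub.refl _), hr, by omega⟩
        · exact ⟨l, r, Or.inl (Sub.refl _), hl, h1⟩

def FF : ℕ → ℕ
  | 0 => 8
  | m + 1 => 2 * FF m + 20

lemma FF_pos (m : ℕ) : 1 ≤ FF m := by
  cases m <;> simp only [FF] <;> omega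

theorem path : ∀ (m : ℕ) (b : Bin), FF m ≤ b.n → (∃ b', Sub b' b ∧ Run 20 b') ∨
    ∃ X ∈ pieces, ∀ ω : List Bool, ω.length ≤ m → EmbE (chain ω X) b
  | 0, b, h => by
    right
    obtain ⟨X, hX, hb⟩ := cls8 b h
    refine ⟨X, hX, fun ω hω => ?_⟩
    have : ω = [] := List.length_eq_zero_iff.mp (by omega)
    subst this; exact hb
  | m + 1, b, h => by
    rcases walk_down (FF m) (FF_pos m) 20 b h with h1 | ⟨l, r, h1, h2, h3⟩
    · exact Or.inl ⟨b, Sub.refl b, h1⟩
    · have hs : Sub r b := by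
        rcases h1 with h1 | h1
        · exact (sub_r _ _).trans h1
        · exact (sub_l _ _).trans h1
      rcases path m r h3 with ⟨b', s', h4⟩ | ⟨X, hX, h4⟩
      · exact Or.inl ⟨b', s'.trans hs, h4⟩
      · refine Or.inr ⟨X, hX, fun ω hω => ?_⟩
        cases ω with
        | nil => exact (h4 [] (by simp)).mono hs
        | cons a ω =>
          have h5 := h4 ω (by simpa using hω)
          have h6 : EmbE (if a then pCh else .leaf ()) l := by
            cases a with
            | true => simpa using has_ch l h2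
            | false => simpa using has_leaf l
          rcases h1 with h1 | h1
          · refine ⟨_, h1, ?_⟩
            rw [chain, emb_ff]
            exact ⟨l, r, Or.inl rfl, h6, h5⟩
          · refine ⟨_, h1, ?_⟩
            rw [chain, emb_ff]
            exact ⟨l, r, Or.inr rfl, h6, h5⟩

/-- caterpillar patterns -/
def cat : List (Bool × Bool) → LT Unit
  | [] => .leaf ()
  | e :: l => .node () e.1 e.2 (.leaf ()) (cat l)

lemma emb_node {pl pr : Bool} {l r : LT Unit} {l' r' : Bin} (hl : EmbR l l') (hr : EmbR r r') :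
    EmbR (.node () pl pr l r) (.node l' r') := by
  refine ⟨l', r', Or.inl rfl, ?_, ?_⟩
  · cases pl with
    | true => simpa using hl
    | false => simpa using ⟨l', Sub.refl _, hl⟩
  · cases pr with
    | true => simpa using hr
    | false => simpa using ⟨r', Sub.refl _, hr⟩

lemma emb_node' {pl pr : Bool} {l r : LT Unit} {l' r' : Bin} (hl : EmbR l l') (hr : EmbR r r') :
    EmbR (.node () pl pr l r) (.node r' l') := by
  refine ⟨l', r', Or.inr rfl, ?_, ?_⟩
  · cases pl with
    | true => simpa using hl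
    | false => simpa using ⟨l', Sub.refl _, hl⟩
  · cases pr with
    | true => simpa using hr
    | false => simpa using ⟨r', Sub.refl _, hr⟩

theorem run_cat (a : Bool) : ∀ (fl : List (Bool × Bool)) (b : Bin), Run (fl.length + 1) b →
    EmbR (cat (fl ++ [(a, false)])) b
  | [], .leaf, h => by simp only [List.length_nil, Run] at h
  | [], .node l r, h => by
    simp only [List.length_nil, Run, and_true] at h
    rcases h with rfl | rfl
    · refine ⟨.leaf, r, Or.inl rfl, ?_, ?_⟩
      · cases a with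
        | true => exact rfl
        | false => exact ⟨.leaf, Sub.refl _, rfl⟩
      · obtain ⟨b', h1, h2⟩ := has_leaf r
        exact ⟨b', h1, h2⟩
    · refine ⟨.leaf, l, Or.inr rfl, ?_, ?_⟩
      · cases a with
        | true => exact rfl
        | false => exact ⟨.leaf, Sub.refl _, rfl⟩
      · obtain ⟨b', h1, h2⟩ := has_leaf l
        exact ⟨b', h1, h2⟩
  | e :: fl, .leaf, h => by simp only [List.length_cons, Run] at h
  | e :: fl, .node l r, h => by
    simp only [List.length_cons, Run] at h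
    rcases h with ⟨rfl, h⟩ | ⟨rfl, h⟩
    · exact emb_node rfl (run_cat a fl r h)
    · exact emb_node' rfl (run_cat a fl l h)

end Pool.Agent.Helper80.Hist
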