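import Pool.Agent.Helper80.Hist.Unc
import Pool.Agent.Helper80.Hist.Emb

namespace Pool.Agent.Helper80.Hist

/-! ### Checker for the base graphs -/

/-- neighbours of `x` -/
def nb (x : ℕ) : List (ℕ × ℕ) → List ℕ
  | [] => []
  | e :: l => if Nat.beq e.1 x then e.2 :: nb x l else if Nat.beq e.2 x then e.1 :: nb x l
      else nb x l

lemma mem_nb {x y : ℕ} {E : List (ℕ × ℕ)} (hE : ∀ e ∈ E, e.1 ≠ e.2) :
    y ∈ nb x E ↔ ((x, y) ∈ E ∨ (y, x) ∈ E) := by
  induction E with
  | nil => simp [nb]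
  | cons e l ih =>
    have ih := ih (fun e he => hE e (by simp [he]))
    obtain ⟨a, b⟩ := e
    have hab : a ≠ b := hE (a, b) (by simp)
    simp only [nb, beqN]
    split_ifs with h1 h2
    · subst h1
      simp only [List.mem_cons, ih, Prod.mk.injEq, true_and]
      constructor
      · rintro (h | h | h)
        · exact Or.inl (Or.inl h)
        · exact Or.inl (Or.inr h)
        · exact Or.inr (Or.inr h)
      · rintro ((h | h) | (h | h))
        · exact Or.inl h
        · exact Or.inr (Or.inl h)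
        · exact absurd h.2 hab
        · exact Or.inr (Or.inr h)
    · subst h2
      simp only [List.mem_cons, ih, Prod.mk.injEq, and_true]
      constructor
      · rintro (h | h | h)
        · exact Or.inr (Or.inl h)
        · exact Or.inl (Or.inr h)
        · exact Or.inr (Or.inr h)
      · rintro ((h | h) | (h | h))
        · exact absurd h.1.symm hab
        · exact Or.inr (Or.inl h)
        · exact Or.inl h
        · exact Or.inr (Or.inr h)
    · simp only [List.mem_cons, ih, Prod.mk.injEq]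
      constructor
      · rintro (h | h)
        · exact Or.inl (Or.inr h)
        · exact Or.inr (Or.inr h)
      · rintro ((h | h) | (h | h))
        · exact absurd h.1.symm h1
        · exact Or.inl h
        · exact absurd h.2.symm h2
        · exact Or.inr h

def delN (x : ℕ) : List ℕ → List ℕ
  | [] => []
  | a :: l => if Nat.beq a x then delN x l else a :: delN x l

lemma mem_delN {x y : ℕ} {l : List ℕ} : y ∈ delN x l ↔ (y ∈ l ∧ y ≠ x) := by
  induction l with
  | nil => simp [delN]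
  | cons a l ih =>
    simp only [delN, beqN]
    split_ifs with h
    · subst h
      simp only [ih, List.mem_cons]
      tauto
    · simp only [List.mem_cons, ih]
      constructor
      · rintro (rfl | h')
        · exact ⟨Or.inl rfl, h⟩
        · exact ⟨Or.inr h'.1, h'.2⟩
      · rintro ⟨h1 | h1, h2⟩
        · exact Or.inl h1
        · exact Or.inr ⟨h1, h2⟩

/-- second neighbours -/
def nb2 (E : List (ℕ × ℕ)) (x : ℕ) : List ℕ → List ℕ
  | [] => []
  | y :: l => delN x (nb y E) ++ nb2 E x l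

lemma mem_nb2 {E : List (ℕ × ℕ)} {x z : ℕ} {l : List ℕ} :
    z ∈ nb2 E x l ↔ ∃ y ∈ l, z ∈ delN x (nb y E) := by
  induction l with
  | nil => simp [nb2]
  | cons a l ih => simp [nb2, ih]

def girthOK (E : List (ℕ × ℕ)) (x : ℕ) : Bool := nodupB (nb x E ++ nb2 E x (nb x E))

lemma nb2_unique {E : List (ℕ × ℕ)} {x z y w : ℕ} {l : List ℕ} (h : (nb2 E x l).Nodup)
    (hy : y ∈ l) (hw : w ∈ l) (h1 : z ∈ delN x (nb y E)) (h2 : z ∈ delN x (nb w E)) : y = w := by
  induction l with
  | nil => simp at hy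
  | cons a l ih =>
    simp only [nb2, List.nodup_append] at h
    obtain ⟨_, h3, h4⟩ := h
    rcases List.mem_cons.mp hy with rfl | hy'
    · rcases List.mem_cons.mp hw with rfl | hw'
      · rfl
      · exact absurd rfl (h4 z h1 z (mem_nb2.mpr ⟨w, hw', h2⟩))
    · rcases List.mem_cons.mp hw with rfl | hw'
      · exact absurd rfl (h4 z h2 z (mem_nb2.mpr ⟨y, hy', h1⟩))
      · exact ih h3 hy' hw'

theorem nt_of {E : List (ℕ × ℕ)} {V : List ℕ} (hE : ∀ e ∈ E, e.1 ≠ e.2)
    (hV : ∀ x y, (ofList E).Adj x y → x ∈ V)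
    (h : ∀ x ∈ V, girthOK E x = true) : NT (ofList E) := by
  intro x y z h1 h2 h3
  have hx := h x (hV _ _ h1)
  rw [girthOK, nodupB_iff, List.nodup_append] at hx
  have m1 : y ∈ nb x E := (mem_nb hE).mpr h1.2
  have m2 : z ∈ nb x E := (mem_nb hE).mpr h3.2
  have m3 : z ∈ nb2 E x (nb x E) :=
    mem_nb2.mpr ⟨y, m1, mem_delN.mpr ⟨(mem_nb hE).mpr h2.2, h3.1.symm⟩⟩
  exact hx.2.2 z m2 z m3 rfl

theorem n4_of {E : List (ℕ × ℕ)} {V : List ℕ} (hE : ∀ e ∈ E, e.1 ≠ e.2)
    (hV : ∀ x y, (ofList E).Adj x y → x ∈ V)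
    (h : ∀ x ∈ V, girthOK E x = true) : N4 (ofList E) := by
  intro x y z w h1 h2 h3 h4
  by_contra hcon
  push Not at hcon
  obtain ⟨n1, n2⟩ := hcon
  have hx := h x (hV _ _ h1)
  rw [girthOK, nodupB_iff, List.nodup_append] at hx
  have m1 : y ∈ nb x E := (mem_nb hE).mpr h1.2
  have m2 : w ∈ nb x E := (mem_nb hE).mpr h4.symm.2
  exact n2 (nb2_unique hx.2.1 m1 m2 (mem_delN.mpr ⟨(mem_nb hE).mpr h2.2, n1.symm⟩)
    (mem_delN.mpr ⟨(mem_nb hE).mpr h3.symm.2, n1.symm⟩))

def allP (f : ℕ × ℕ → Bool) : List (ℕ × ℕ) → Bool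
  | [] => true
  | a :: l => f a && allP f l

lemma allP_iff (f : ℕ × ℕ → Bool) (l : List (ℕ × ℕ)) : allP f l = true ↔ ∀ x ∈ l, f x = true := by
  induction l with
  | nil => simp [allP]
  | cons a l ih => simp only [allP, Bool.and_eq_true, ih, List.mem_cons, forall_eq_or_imp]

/-- ordered membership -/
def memP (x y : ℕ) : List (ℕ × ℕ) → Bool
  | [] => false
  | e :: l => (Nat.beq x e.1 && Nat.beq y e.2) || memP x y l

lemma memP_iff (x y : ℕ) (E : List (ℕ × ℕ)) : memP x y E = true ↔ (x, y) ∈ E := by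
  induction E with
  | nil => simp [memP]
  | cons e l ih =>
    obtain ⟨u, v⟩ := e
    simp only [memP, Bool.or_eq_true, Bool.and_eq_true, beqN, ih, List.mem_cons, Prod.mk.injEq]

def nodupP : List (ℕ × ℕ) → Bool
  | [] => true
  | e :: l => !(memP e.1 e.2 l) && nodupP l

lemma nodupP_iff (l : List (ℕ × ℕ)) : nodupP l = true ↔ l.Nodup := by
  induction l with
  | nil => simp [nodupP]
  | cons x l ih =>
    simp only [nodupP, Bool.and_eq_true, ih, List.nodup_cons, Bool.not_eq_true', ← Bool.not_eq_true,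
      memP_iff]

def baseOK (t : LT ℕ) (E C : List (ℕ × ℕ)) (a b c d : ℕ) (st : List Stp)
    (Fr : List (ℕ × ℕ)) : Bool :=
  nodupB (0 :: t.labels) && certOK a b c d st (0 :: t.labels) E &&
  allP (fun e => !(Nat.beq e.1 e.2)) E && allN (girthOK E) (0 :: t.labels) &&
  allP (fun e => mem2 e.1 e.2 E) C &&
  allP (fun e => mem2 e.1 e.2 E && (!(mem2 e.1 e.2 C) || memP e.1 e.2 t.pedges)) (t.tedges 0) &&
  nodupP Fr && Nat.ble 26 Fr.length &&
  allP (fun e => mem2 e.1 e.2 E && !(mem2 e.1 e.2 (t.tedges 0)) && !(mem2 e.1 e.2 C)) Fr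

theorem base_good {t : LT ℕ} {E C : List (ℕ × ℕ)} {a b c d : ℕ} {st : List Stp}
    {Fr : List (ℕ × ℕ)} (h : baseOK t E C a b c d st Fr = true) (hC : ¬ Col (ofList C)) :
    GoodW t (ofList E) (ofList C) := by
  simp only [baseOK, Bool.and_eq_true] at h
  obtain ⟨⟨⟨⟨⟨⟨⟨⟨h1, h2⟩, h3⟩, h4⟩, h5⟩, h6⟩, h7⟩, h8⟩, h9⟩ := h
  have core := cert_core h2
  rw [nodupB_iff] at h1
  rw [allP_iff] at h3 h5 h6 h9
  rw [allN_iff] at h4
  rw [nodupP_iff] at h7
  have h8 := Nat.le_of_ble_eq_true h8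
  have h3' : ∀ e ∈ E, e.1 ≠ e.2 := fun e he => by
    have := h3 e he
    simp only [Bool.not_eq_true', ← Bool.not_eq_true, beqN] at this
    exact this
  have hV : ∀ x y, (ofList E).Adj x y → x ∈ (0 :: t.labels) := fun x y h => by
    have := core.supp x y h
    simpa using this
  have ne_of : ∀ x y, mem2 x y E = true → x ≠ y := fun x y h => by
    rw [mem2_iff] at h
    rcases h with h | h
    · exact h3' _ h
    · exact (h3' _ h).symm
  refine ⟨h1, core, nt_of h3' hV h4, n4_of h3' hV h4, ?_, hC, ?_, ?_, Fr.toFinset, ?_, ?_⟩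
  · rintro x y ⟨hn, h | h⟩
    · exact ⟨hn, (mem2_iff _ _ _).mp (h5 _ h)⟩
    · exact ⟨hn, ((mem2_iff _ _ _).mp (h5 _ h)).symm⟩
  · intro e he
    have := h6 e he
    simp only [Bool.and_eq_true] at this
    exact ⟨ne_of _ _ this.1, (mem2_iff _ _ _).mp this.1⟩
  · rintro e he ⟨hn, h⟩
    have := h6 e he
    simp only [Bool.and_eq_true, Bool.or_eq_true, Bool.not_eq_true', ← Bool.not_eq_true, mem2_iff,
      memP_iff] at this
    rcases this.2 with h' | h'
    · exact absurd h h'
    · exact h'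
  · rw [List.toFinset_card_of_nodup h7]; exact h8
  · intro e he
    rw [List.mem_toFinset] at he
    have := h9 e he
    simp only [Bool.and_eq_true, Bool.not_eq_true', ← Bool.not_eq_true, mem2_iff] at this
    obtain ⟨⟨g1, g2⟩, g3⟩ := this
    refine ⟨⟨ne_of _ _ ((mem2_iff _ _ _).mpr g1), g1⟩, ?_, fun h => g3 h.2⟩
    intro h; exact g2 h

end Pool.Agent.Helper80.Hist
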