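import Pool.Agent.Helper80.Hist.Girth

namespace Pool.Agent.Helper80.Hist

open Finset

/-- graph of a list of pairs -/
def ofList (E : List (ℕ × ℕ)) : SimpleGraph ℕ where
  Adj x y := x ≠ y ∧ ((x, y) ∈ E ∨ (y, x) ∈ E)
  symm := ⟨fun _ _ h => ⟨h.1.symm, h.2.symm⟩⟩
  loopless := ⟨fun _ h => h.1 rfl⟩

lemma aa_one {G : SimpleGraph ℕ} {x y : ℕ} (h : G.Adj x y) : aa G x y = 1 := by
  simp [aa, h]

theorem core_K4 {a b c d : ℕ} (ab : a ≠ b) (ac : a ≠ c) (ad : a ≠ d) (bc : b ≠ c) (bd : b ≠ d)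
    (cd : c ≠ d) :
    Core {a, b, c, d} (ofList [(a, b), (a, c), (a, d), (b, c), (b, d), (c, d)]) := by
  set G := ofList [(a, b), (a, c), (a, d), (b, c), (b, d), (c, d)] with hG
  have hab : G.Adj a b := ⟨ab, by simp⟩
  have hac : G.Adj a c := ⟨ac, by simp⟩
  have had : G.Adj a d := ⟨ad, by simp⟩
  have hbc : G.Adj b c := ⟨bc, by simp⟩
  have hbd : G.Adj b d := ⟨bd, by simp⟩
  have hcd : G.Adj c d := ⟨cd, by simp⟩
  have S : ∀ f : ℕ → ℤ, ∑ x ∈ ({a, b, c, d} : Finset ℕ), f x = f a + f b + f c + f d := by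
    intro f
    rw [Finset.sum_insert (by simp [ab, ac, ad]), Finset.sum_insert (by simp [bc, bd]),
      Finset.sum_insert (by simp [cd]), Finset.sum_singleton]
    ring
  refine ⟨?_, ?_, ?_⟩
  · intro x y h
    obtain ⟨_, h⟩ := h
    simp only [List.mem_cons, Prod.mk.injEq, List.not_mem_nil, or_false] at h
    simp only [Finset.mem_insert, Finset.mem_singleton]
    tauto
  · intro x hx
    rw [S]
    simp only [Finset.mem_insert, Finset.mem_singleton] at hx
    rcases hx with rfl | rfl | rfl | rfl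
    · rw [aa_self, aa_one hab, aa_one hac, aa_one had]; norm_num
    · rw [aa_self, aa_one hab.symm, aa_one hbc, aa_one hbd]; norm_num
    · rw [aa_self, aa_one hac.symm, aa_one hbc.symm, aa_one hcd]; norm_num
    · rw [aa_self, aa_one had.symm, aa_one hbd.symm, aa_one hcd.symm]; norm_num
  · intro σ hσ h1 h2
    rw [S] at h1 h2
    simp only [cutv, S]
    rw [aa_self, aa_self, aa_self, aa_self, aa_one hab, aa_one hac, aa_one had, aa_one hab.symm,
      aa_one hac.symm, aa_one had.symm, aa_one hbc, aa_one hbd, aa_one hcd, aa_one hbc.symm,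
      aa_one hbd.symm, aa_one hcd.symm]
    rcases hσ a with ha | ha <;> rcases hσ b with hb | hb <;> rcases hσ c with hc | hc <;>
      rcases hσ d with hd | hd <;> simp only [ha, hb, hc, hd] at h1 h2 ⊢ <;>
      omega

lemma beqN (a b : ℕ) : Nat.beq a b = true ↔ a = b :=
  ⟨Nat.eq_of_beq_eq_true, fun h => h ▸ Nat.beq_refl a⟩

/-- unordered membership -/
def mem2 (x y : ℕ) : List (ℕ × ℕ) → Bool
  | [] => false
  | e :: l => (Nat.beq x e.1 && Nat.beq y e.2) || (Nat.beq x e.2 && Nat.beq y e.1) || mem2 x y l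

lemma mem2_iff (x y : ℕ) (E : List (ℕ × ℕ)) : mem2 x y E = true ↔ ((x, y) ∈ E ∨ (y, x) ∈ E) := by
  induction E with
  | nil => simp [mem2]
  | cons e l ih =>
    obtain ⟨u, v⟩ := e
    simp only [mem2, Bool.or_eq_true, Bool.and_eq_true, beqN, ih, List.mem_cons,
      Prod.mk.injEq]
    tauto

/-- delete an edge -/
def del2 (x y : ℕ) : List (ℕ × ℕ) → List (ℕ × ℕ)
  | [] => []
  | e :: l => if (Nat.beq x e.1 && Nat.beq y e.2) || (Nat.beq x e.2 && Nat.beq y e.1) then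
      del2 x y l else e :: del2 x y l

lemma mem_del2 (x y : ℕ) (E : List (ℕ × ℕ)) (u v : ℕ) :
    (u, v) ∈ del2 x y E ↔ ((u, v) ∈ E ∧ ¬ Eq2 u v x y) := by
  induction E with
  | nil => simp [del2]
  | cons e l ih =>
    obtain ⟨a, b⟩ := e
    simp only [del2]
    split_ifs with h
    · simp only [Bool.or_eq_true, Bool.and_eq_true, beqN] at h
      rw [ih]
      simp only [List.mem_cons, Prod.mk.injEq]
      constructor
      · rintro ⟨h1, h2⟩; exact ⟨Or.inr h1, h2⟩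
      · rintro ⟨h1 | h1, h2⟩
        · exfalso; apply h2
          unfold Eq2
          obtain ⟨rfl, rfl⟩ := h1
          rcases h with ⟨h3, h4⟩ | ⟨h3, h4⟩
          · exact Or.inl ⟨h3.symm, h4.symm⟩
          · exact Or.inr ⟨h4.symm, h3.symm⟩
        · exact ⟨h1, h2⟩
    · simp only [Bool.or_eq_true, Bool.and_eq_true, beqN] at h
      simp only [List.mem_cons, Prod.mk.injEq, ih]
      constructor
      · rintro (⟨rfl, rfl⟩ | ⟨h1, h2⟩)
        · refine ⟨Or.inl ⟨rfl, rfl⟩, fun h2 => h ?_⟩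
          rcases h2 with ⟨h3, h4⟩ | ⟨h3, h4⟩
          · exact Or.inl ⟨h3.symm, h4.symm⟩
          · exact Or.inr ⟨h4.symm, h3.symm⟩
        · exact ⟨Or.inr h1, h2⟩
      · rintro ⟨h1 | h1, h2⟩
        · exact Or.inl h1
        · exact Or.inr ⟨h1, h2⟩

/-- membership of a natural number in a list -/
def memN (x : ℕ) : List ℕ → Bool
  | [] => false
  | e :: l => Nat.beq x e || memN x l

lemma memN_iff (x : ℕ) (l : List ℕ) : memN x l = true ↔ x ∈ l := by
  induction l with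
  | nil => simp [memN]
  | cons e l ih =>
    simp only [memN, Bool.or_eq_true, beqN, ih, List.mem_cons]

structure Stp where
  p : ℕ
  q : ℕ
  c : ℕ
  d : ℕ
  r : ℕ
  w : ℕ

/-- is the insertion step legal -/
def stepOK (V : List ℕ) (E : List (ℕ × ℕ)) (s : Stp) : Bool :=
  mem2 s.p s.q E && mem2 s.c s.d E && !(Nat.beq s.p s.q) && !(Nat.beq s.c s.d) &&
    !(Nat.beq s.p s.c) && !(Nat.beq s.p s.d) && !(Nat.beq s.q s.c) && !(Nat.beq s.q s.d) &&
    !(memN s.r V) && !(memN s.w V) && !(Nat.beq s.r s.w)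

def newE (E : List (ℕ × ℕ)) (s : Stp) : List (ℕ × ℕ) :=
  (s.p, s.r) :: (s.r, s.q) :: (s.r, s.w) :: (s.c, s.w) :: (s.w, s.d) ::
    del2 s.c s.d (del2 s.p s.q E)

/-- run a list of insertion steps -/
def run : List Stp → List ℕ → List (ℕ × ℕ) → Option (List ℕ × List (ℕ × ℕ))
  | [], V, E => some (V, E)
  | s :: l, V, E => if stepOK V E s then run l (s.r :: s.w :: V) (newE E s) else none

lemma ofList_newE (E : List (ℕ × ℕ)) (s : Stp) :
    ofList (newE E s) = ins (ofList E) s.p s.q s.c s.d s.r s.w := by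
  ext x y
  simp only [ofList, newE, ins, List.mem_cons, Prod.mk.injEq, mem_del2]
  rw [eq2_comm (x := y) (y := x), eq2_comm (x := y) (y := x)]
  unfold Eq2
  constructor
  · rintro ⟨h1, h2⟩
    by_cases h3 : (x ≠ y ∧ ((x, y) ∈ E ∨ (y, x) ∈ E)) ∧
      ¬(x = s.p ∧ y = s.q ∨ x = s.q ∧ y = s.p) ∧ ¬(x = s.c ∧ y = s.d ∨ x = s.d ∧ y = s.c)
    · exact Or.inl h3
    · right
      refine ⟨h1, ?_⟩
      rcases h2 with (h2 | h2 | h2 | h2 | h2 | h2) | (h2 | h2 | h2 | h2 | h2 | h2)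
      · exact Or.inl (Or.inl h2)
      · exact Or.inr (Or.inl (Or.inl h2))
      · exact Or.inr (Or.inr (Or.inl (Or.inl h2)))
      · exact Or.inr (Or.inr (Or.inr (Or.inl (Or.inl h2))))
      · exact Or.inr (Or.inr (Or.inr (Or.inr (Or.inl h2))))
      · exact absurd ⟨⟨h1, Or.inl h2.1.1⟩, h2.1.2, h2.2⟩ h3
      · exact Or.inl (Or.inr ⟨h2.2, h2.1⟩)
      · exact Or.inr (Or.inl (Or.inr ⟨h2.2, h2.1⟩))
      · exact Or.inr (Or.inr (Or.inl (Or.inr ⟨h2.2, h2.1⟩)))
      · exact Or.inr (Or.inr (Or.inr (Or.inl (Or.inr ⟨h2.2, h2.1⟩))))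
      · exact Or.inr (Or.inr (Or.inr (Or.inr (Or.inr ⟨h2.2, h2.1⟩))))
      · exact absurd ⟨⟨h1, Or.inr h2.1.1⟩, h2.1.2, h2.2⟩ h3
  · rintro (⟨⟨h1, h2⟩, h3, h4⟩ | ⟨h1, h2⟩)
    · refine ⟨h1, ?_⟩
      rcases h2 with h2 | h2
      · exact Or.inl (Or.inr (Or.inr (Or.inr (Or.inr (Or.inr ⟨⟨h2, h3⟩, h4⟩)))))
      · exact Or.inr (Or.inr (Or.inr (Or.inr (Or.inr (Or.inr ⟨⟨h2, h3⟩, h4⟩)))))
    · refine ⟨h1, ?_⟩
      rcases h2 with (h | h) | (h | h) | (h | h) | (h | h) | (h | h)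
      · exact Or.inl (Or.inl h)
      · exact Or.inr (Or.inl ⟨h.2, h.1⟩)
      · exact Or.inl (Or.inr (Or.inl h))
      · exact Or.inr (Or.inr (Or.inl ⟨h.2, h.1⟩))
      · exact Or.inl (Or.inr (Or.inr (Or.inl h)))
      · exact Or.inr (Or.inr (Or.inr (Or.inl ⟨h.2, h.1⟩)))
      · exact Or.inl (Or.inr (Or.inr (Or.inr (Or.inl h))))
      · exact Or.inr (Or.inr (Or.inr (Or.inr (Or.inl ⟨h.2, h.1⟩))))
      · exact Or.inl (Or.inr (Or.inr (Or.inr (Or.inr (Or.inl h)))))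
      · exact Or.inr (Or.inr (Or.inr (Or.inr (Or.inr (Or.inl ⟨h.2, h.1⟩)))))

lemma run_core : ∀ (l : List Stp) (V : List ℕ) (E : List (ℕ × ℕ)) (V' : List ℕ)
    (E' : List (ℕ × ℕ)), run l V E = some (V', E') → Core V.toFinset (ofList E) →
    Core V'.toFinset (ofList E')
  | [], V, E, V', E', h, hC => by
      simp only [run, Option.some.injEq, Prod.mk.injEq] at h
      rw [← h.1, ← h.2]; exact hC
  | s :: l, V, E, V', E', h, hC => by
      simp only [run] at h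
      split_ifs at h with h1
      apply run_core l _ _ _ _ h
      simp only [stepOK, Bool.and_eq_true, Bool.not_eq_true', mem2_iff, ← Bool.not_eq_true,
        beqN, memN_iff] at h1
      obtain ⟨⟨⟨⟨⟨⟨⟨⟨⟨⟨a1, a2⟩, a3⟩, a4⟩, a5⟩, a6⟩, a7⟩, a8⟩, a9⟩, a10⟩, a11⟩ := h1
      rw [ofList_newE]
      have : (s.r :: s.w :: V).toFinset = insert s.r (insert s.w V.toFinset) := by
        simp
      rw [this]
      exact hC.ins ⟨⟨a3, a1⟩, ⟨a4, a2⟩, a5, a6, a7, a8, by simpa using a9, by simpa using a10, a11⟩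

/-- two lists give the same graph -/
def sameE (E F : List (ℕ × ℕ)) : Bool :=
  E.all (fun e => mem2 e.1 e.2 F) && F.all (fun e => mem2 e.1 e.2 E)

lemma sameE_eq {E F : List (ℕ × ℕ)} (h : sameE E F = true) : ofList E = ofList F := by
  simp only [sameE, Bool.and_eq_true, List.all_eq_true, mem2_iff] at h
  obtain ⟨h1, h2⟩ := h
  ext x y
  simp only [ofList]
  constructor
  · rintro ⟨a, b | b⟩
    · exact ⟨a, h1 _ b⟩
    · exact ⟨a, (h1 _ b).symm⟩
  · rintro ⟨a, b | b⟩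
    · exact ⟨a, h2 _ b⟩
    · exact ⟨a, (h2 _ b).symm⟩

def sameV (V W : List ℕ) : Bool := V.all (fun e => memN e W) && W.all (fun e => memN e V)

lemma sameV_eq {V W : List ℕ} (h : sameV V W = true) : V.toFinset = W.toFinset := by
  simp only [sameV, Bool.and_eq_true, List.all_eq_true, memN_iff] at h
  ext x
  simp only [List.mem_toFinset]
  exact ⟨h.1 x, h.2 x⟩

/-- certificate check -/
def certOK (a b c d : ℕ) (l : List Stp) (V : List ℕ) (E : List (ℕ × ℕ)) : Bool :=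
  !(Nat.beq a b) && !(Nat.beq a c) && !(Nat.beq a d) && !(Nat.beq b c) && !(Nat.beq b d) &&
    !(Nat.beq c d) &&
  match run l [a, b, c, d] [(a, b), (a, c), (a, d), (b, c), (b, d), (c, d)] with
  | none => false
  | some (V', E') => sameV V V' && sameE E E'

theorem cert_core {a b c d : ℕ} {l : List Stp} {V : List ℕ} {E : List (ℕ × ℕ)}
    (h : certOK a b c d l V E = true) : Core V.toFinset (ofList E) := by
  simp only [certOK] at h
  split at h
  · simp at h
  · rename_i V' E' h1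
    simp only [Bool.and_eq_true, Bool.not_eq_true', ← Bool.not_eq_true,
        beqN] at h
    obtain ⟨⟨⟨⟨⟨⟨a1, a2⟩, a3⟩, a4⟩, a5⟩, a6⟩, a7, a8⟩ := h
    rw [sameV_eq a7, sameE_eq a8]
    apply run_core l _ _ _ _ h1
    have := core_K4 a1 a2 a3 a4 a5 a6
    simpa using this

end Pool.Agent.Helper80.Hist
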