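import Mathlib

namespace Pool.Agent.Helper80.Hist

open Finset

/-- `{x, y} = {u, v}` -/
def Eq2 (x y u v : ℕ) : Prop := (x = u ∧ y = v) ∨ (x = v ∧ y = u)

lemma Eq2.symm' {x y u v : ℕ} (h : Eq2 x y u v) : Eq2 y x u v := by
  rcases h with h | h
  · exact Or.inr ⟨h.2, h.1⟩
  · exact Or.inl ⟨h.2, h.1⟩

lemma eq2_comm {x y u v : ℕ} : Eq2 x y u v ↔ Eq2 y x u v := ⟨Eq2.symm', Eq2.symm'⟩

/-- Insertion of an edge `rw` between the edges `pq` and `cd`. -/
def ins (G : SimpleGraph ℕ) (p q c d r w : ℕ) : SimpleGraph ℕ where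
  Adj x y := (G.Adj x y ∧ ¬ Eq2 x y p q ∧ ¬ Eq2 x y c d) ∨
    (x ≠ y ∧ (Eq2 x y p r ∨ Eq2 x y r q ∨ Eq2 x y r w ∨ Eq2 x y c w ∨ Eq2 x y w d))
  symm := ⟨fun x y h => by
    rw [G.adj_comm, eq2_comm (x := y), eq2_comm (x := y), eq2_comm (x := y), eq2_comm (x := y),
      eq2_comm (x := y), eq2_comm (x := y), eq2_comm (x := y), ne_comm]
    exact h⟩
  loopless := ⟨fun x h => by
    rcases h with h | h
    · exact h.1.ne rfl
    · exact h.1 rfl⟩

open Classical in
/-- adjacency indicator -/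
noncomputable def aa (G : SimpleGraph ℕ) (x y : ℕ) : ℤ := if G.Adj x y then 1 else 0

/-- indicator of an ordered pair -/
def dl (x y u v : ℕ) : ℤ := if x = u ∧ y = v then 1 else 0

/-- size of the cut given by a 0/1 function -/
noncomputable def cutv (A : Finset ℕ) (G : SimpleGraph ℕ) (σ : ℕ → ℤ) : ℤ :=
  ∑ x ∈ A, ∑ y ∈ A, aa G x y * (σ x * (1 - σ y))

structure Core (A : Finset ℕ) (G : SimpleGraph ℕ) : Prop where
  supp : ∀ x y, G.Adj x y → x ∈ A
  cubic : ∀ x ∈ A, ∑ y ∈ A, aa G x y = 3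
  cut : ∀ σ : ℕ → ℤ, (∀ x, σ x = 0 ∨ σ x = 1) → 2 ≤ ∑ x ∈ A, σ x → 2 ≤ ∑ x ∈ A, (1 - σ x) →
    4 ≤ cutv A G σ

lemma sum_dl (A : Finset ℕ) (f : ℕ → ℕ → ℤ) {u v : ℕ} (hu : u ∈ A) (hv : v ∈ A) :
    ∑ x ∈ A, ∑ y ∈ A, dl x y u v * f x y = f u v := by
  rw [Finset.sum_eq_single u]
  · rw [Finset.sum_eq_single v]
    · simp [dl]
    · intro b _ hb; simp [dl, hb]
    · intro h; exact absurd hv h
  · intro b _ hb
    apply Finset.sum_eq_zero
    intro y _
    simp [dl, hb]
  · intro h; exact absurd hu h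

structure Fresh (A : Finset ℕ) (G : SimpleGraph ℕ) (p q c d r w : ℕ) : Prop where
  pq : G.Adj p q
  cd : G.Adj c d
  pc : p ≠ c
  pd : p ≠ d
  qc : q ≠ c
  qd : q ≠ d
  rA : r ∉ A
  wA : w ∉ A
  rw : r ≠ w

section
variable {A : Finset ℕ} {G : SimpleGraph ℕ} {p q c d r w : ℕ}

open Classical in
lemma aa_ins (hs : ∀ x y, G.Adj x y → x ∈ A) (F : Fresh A G p q c d r w) (x y : ℕ) :
    aa (ins G p q c d r w) x y = aa G x y
      + (dl x y p r + dl x y r p + dl x y r q + dl x y q r + dl x y r w + dl x y w r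
        + dl x y c w + dl x y w c + dl x y w d + dl x y d w)
      - (dl x y p q + dl x y q p + dl x y c d + dl x y d c) := by
  obtain ⟨pq, cd, pc, pd, qc, qd, rA, wA, rw'⟩ := F
  have hp := hs _ _ pq
  have hq := hs _ _ pq.symm
  have hc := hs _ _ cd
  have hd := hs _ _ cd.symm
  have npq : p ≠ q := pq.ne
  have ncd : c ≠ d := cd.ne
  have rp : r ≠ p := fun h => rA (h ▸ hp)
  have rq : r ≠ q := fun h => rA (h ▸ hq)
  have rc : r ≠ c := fun h => rA (h ▸ hc)
  have rd : r ≠ d := fun h => rA (h ▸ hd)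
  have wp : w ≠ p := fun h => wA (h ▸ hp)
  have wq : w ≠ q := fun h => wA (h ▸ hq)
  have wc : w ≠ c := fun h => wA (h ▸ hc)
  have wd : w ≠ d := fun h => wA (h ▸ hd)
  have nr : ∀ z, ¬ G.Adj r z := fun z h => rA (hs _ _ h)
  have nr' : ∀ z, ¬ G.Adj z r := fun z h => rA (hs _ _ h.symm)
  have nw : ∀ z, ¬ G.Adj w z := fun z h => wA (hs _ _ h)
  have nw' : ∀ z, ¬ G.Adj z w := fun z h => wA (hs _ _ h.symm)
  have gen : ∀ u v t : ℕ, G.Adj u v → ¬ G.Adj u t → u ≠ t → v ≠ t →
      (∀ y, (ins G p q c d r w).Adj u y ↔ (G.Adj u y ∧ y ≠ v) ∨ y = t) →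
      (if (ins G p q c d r w).Adj u y then (1:ℤ) else 0) =
        (if G.Adj u y then 1 else 0) + (if y = t then 1 else 0) - (if y = v then 1 else 0) := by
    intro u v t huv hut h1 h2 h3
    by_cases e1 : y = v
    · subst e1; simp [h3, huv, h2]
    · by_cases e2 : y = t
      · subst e2; simp [h3, hut, e1]
      · simp [h3, e1, e2]
  simp only [aa]
  by_cases x1 : x = p
  · subst x1
    rw [gen x q r pq (nr' _) rp.symm rq.symm]
    · simp [dl, npq, pc, pd, rp.symm, wp.symm]
    · intro z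
      simp only [ins, Eq2]
      have : z = r → x ≠ z := fun h => h ▸ rp.symm
      simp [npq, pc, pd, rp.symm, wp.symm]
      tauto
  by_cases x2 : x = q
  · subst x2
    rw [gen x p r pq.symm (nr' _) rq.symm rp.symm]
    · simp [dl, npq.symm, qc, qd, rq.symm, wq.symm]
    · intro z
      simp only [ins, Eq2]
      have : z = r → x ≠ z := fun h => h ▸ rq.symm
      simp [npq.symm, qc, qd, rq.symm, wq.symm]
      tauto
  by_cases x3 : x = c
  · subst x3
    rw [gen x d w cd (nw' _) wc.symm wd.symm]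
    · simp [dl, ncd, pc.symm, qc.symm, rc.symm, wc.symm]
    · intro z
      simp only [ins, Eq2]
      have : z = w → x ≠ z := fun h => h ▸ wc.symm
      simp [ncd, pc.symm, qc.symm, rc.symm, wc.symm]
      tauto
  by_cases x4 : x = d
  · subst x4
    rw [gen x c w cd.symm (nw' _) wd.symm wc.symm]
    · simp [dl, ncd.symm, pd.symm, qd.symm, rd.symm, wd.symm]
    · intro z
      simp only [ins, Eq2]
      have : z = w → x ≠ z := fun h => h ▸ wd.symm
      simp [ncd.symm, pd.symm, qd.symm, rd.symm, wd.symm]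
      tauto
  by_cases x5 : x = r
  · subst x5
    have h : ∀ z, (ins G p q c d x w).Adj x z ↔ (z = p ∨ z = q ∨ z = w) := by
      intro z
      simp only [ins, Eq2]
      have h1 : z = p → x ≠ z := fun h => h ▸ rp
      have h2 : z = q → x ≠ z := fun h => h ▸ rq
      have h3 : z = w → x ≠ z := fun h => h ▸ rw'
      simp [rp, rq, rc, rd, rw', nr]
      tauto
    simp only [h, nr, dl]
    by_cases e1 : y = p
    · subst e1; simp [rp, rq, rc, rd, rw', npq, wp.symm]
    · by_cases e2 : y = q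
      · subst e2; simp [rp, rq, rc, rd, rw', e1, wq.symm]
      · by_cases e3 : y = w
        · subst e3; simp [rp, rq, rc, rd, rw', e1, e2]
        · simp [rp, rq, rc, rd, rw', e1, e2, e3]
  by_cases x6 : x = w
  · subst x6
    have h : ∀ z, (ins G p q c d r x).Adj x z ↔ (z = c ∨ z = d ∨ z = r) := by
      intro z
      simp only [ins, Eq2]
      have h1 : z = c → x ≠ z := fun h => h ▸ wc
      have h2 : z = d → x ≠ z := fun h => h ▸ wd
      have h3 : z = r → x ≠ z := fun h => h ▸ rw'.symm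
      simp [wp, wq, wc, wd, rw'.symm, nw]
      tauto
    simp only [h, nw, dl]
    by_cases e1 : y = c
    · subst e1; simp [wp, wq, wc, wd, rw'.symm, ncd, rc.symm]
    · by_cases e2 : y = d
      · subst e2; simp [wp, wq, wc, wd, rw'.symm, e1, rd.symm]
      · by_cases e3 : y = r
        · subst e3; simp [wp, wq, wc, wd, rw'.symm, e1, e2]
        · simp [wp, wq, wc, wd, rw'.symm, e1, e2, e3]
  · have h : (ins G p q c d r w).Adj x y ↔ G.Adj x y := by
      simp only [ins, Eq2]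
      simp [x1, x2, x3, x4, x5, x6]
    simp [h, dl, x1, x2, x3, x4, x5, x6]

/-- double sums over the old and the new vertex set -/
lemma sum_old (hs : ∀ x y, G.Adj x y → x ∈ A) (rA : r ∉ A) (wA : w ∉ A) (rw' : r ≠ w)
    (f : ℕ → ℕ → ℤ) :
    ∑ x ∈ insert r (insert w A), ∑ y ∈ insert r (insert w A), aa G x y * f x y =
      ∑ x ∈ A, ∑ y ∈ A, aa G x y * f x y := by
  have h1 : ∀ x y, x ∉ A → aa G x y = 0 := by
    intro x y h
    simp only [aa]
    rw [if_neg]
    exact fun h' => h (hs _ _ h')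
  have h2 : ∀ x y, y ∉ A → aa G x y = 0 := by
    intro x y h
    simp only [aa]
    rw [if_neg]
    exact fun h' => h (hs _ _ h'.symm)
  have hr : r ∉ insert w A := by simp [rA, rw']
  rw [Finset.sum_insert hr, Finset.sum_insert wA]
  have e : ∀ x, ∑ y ∈ insert r (insert w A), aa G x y * f x y = ∑ y ∈ A, aa G x y * f x y := by
    intro x
    rw [Finset.sum_insert hr, Finset.sum_insert wA, h2 x r rA, h2 x w wA]
    ring
  rw [e r, e w, Finset.sum_eq_zero (fun y _ => by rw [h1 r y rA]; ring),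
    Finset.sum_eq_zero (fun y _ => by rw [h1 w y wA]; ring)]
  rw [zero_add, zero_add]
  exact Finset.sum_congr rfl (fun x _ => e x)

lemma sum_ins (hs : ∀ x y, G.Adj x y → x ∈ A) (F : Fresh A G p q c d r w) (f : ℕ → ℕ → ℤ) :
    ∑ x ∈ insert r (insert w A), ∑ y ∈ insert r (insert w A),
        aa (ins G p q c d r w) x y * f x y =
      ∑ x ∈ A, ∑ y ∈ A, aa G x y * f x y
        + (f p r + f r p + f r q + f q r + f r w + f w r + f c w + f w c + f w d + f d w)
        - (f p q + f q p + f c d + f d c) := by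
  have hp : p ∈ insert r (insert w A) := by simp [hs _ _ F.pq]
  have hq : q ∈ insert r (insert w A) := by simp [hs _ _ F.pq.symm]
  have hc : c ∈ insert r (insert w A) := by simp [hs _ _ F.cd]
  have hd : d ∈ insert r (insert w A) := by simp [hs _ _ F.cd.symm]
  have hr : r ∈ insert r (insert w A) := by simp
  have hw : w ∈ insert r (insert w A) := by simp
  simp only [aa_ins hs F, add_mul, sub_mul, Finset.sum_add_distrib, Finset.sum_sub_distrib]
  rw [sum_dl _ f hp hr, sum_dl _ f hr hp, sum_dl _ f hr hq, sum_dl _ f hq hr, sum_dl _ f hr hw,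
    sum_dl _ f hw hr, sum_dl _ f hc hw, sum_dl _ f hw hc, sum_dl _ f hw hd, sum_dl _ f hd hw,
    sum_dl _ f hp hq, sum_dl _ f hq hp, sum_dl _ f hc hd, sum_dl _ f hd hc,
    sum_old hs F.rA F.wA F.rw f]

lemma aa_comm (G : SimpleGraph ℕ) (x y : ℕ) : aa G x y = aa G y x := by
  by_cases h : G.Adj x y
  · rw [aa, aa, if_pos h, if_pos h.symm]
  · rw [aa, aa, if_neg h, if_neg (fun h' => h h'.symm)]

lemma aa_nonneg (G : SimpleGraph ℕ) (x y : ℕ) : 0 ≤ aa G x y := by
  simp only [aa]; split_ifs <;> norm_num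

lemma aa_le (G : SimpleGraph ℕ) (x y : ℕ) : aa G x y ≤ 1 := by
  simp only [aa]; split_ifs <;> norm_num

lemma aa_self (G : SimpleGraph ℕ) (x : ℕ) : aa G x x = 0 := by
  simp [aa]

lemma cutv_compl (A : Finset ℕ) (G : SimpleGraph ℕ) (σ : ℕ → ℤ) :
    cutv A G (fun x => 1 - σ x) = cutv A G σ := by
  simp only [cutv]
  rw [Finset.sum_comm]
  refine Finset.sum_congr rfl fun x _ => Finset.sum_congr rfl fun y _ => ?_
  rw [aa_comm]
  ring

lemma cutv_nonneg (A : Finset ℕ) (G : SimpleGraph ℕ) (σ : ℕ → ℤ)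
    (h : ∀ x, σ x = 0 ∨ σ x = 1) : 0 ≤ cutv A G σ := by
  refine Finset.sum_nonneg fun x _ => Finset.sum_nonneg fun y _ => ?_
  have h1 := aa_nonneg G x y
  rcases h x with hx | hx <;> rcases h y with hy | hy <;> rw [hx, hy] <;> simp [h1]

/-- a set with `k` vertices of a cubic graph has a cut of size at least `3k - k(k-1)` -/
lemma cutv_ge (hc : ∀ x ∈ A, ∑ y ∈ A, aa G x y = 3) (σ : ℕ → ℤ)
    (h : ∀ x, σ x = 0 ∨ σ x = 1) :
    3 * (∑ x ∈ A, σ x) - (∑ x ∈ A, σ x) * (∑ x ∈ A, σ x) + ∑ x ∈ A, σ x ≤ cutv A G σ := by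
  have e1 : cutv A G σ = ∑ x ∈ A, (3 * σ x) - ∑ x ∈ A, ∑ y ∈ A, aa G x y * (σ x * σ y) := by
    rw [← Finset.sum_sub_distrib]
    refine Finset.sum_congr rfl fun x hx => ?_
    rw [← hc x hx, Finset.sum_mul, ← Finset.sum_sub_distrib]
    refine Finset.sum_congr rfl fun y _ => ?_
    ring
  have e2 : ∑ x ∈ A, ∑ y ∈ A, aa G x y * (σ x * σ y) ≤
      ∑ x ∈ A, ∑ y ∈ A, (σ x * σ y) - ∑ x ∈ A, σ x := by
    rw [← Finset.sum_sub_distrib]
    refine Finset.sum_le_sum fun x hx => ?_
    have : ∑ y ∈ A, σ x * σ y - σ x = ∑ y ∈ A, (σ x * σ y - if y = x then σ x else 0) := by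
      rw [Finset.sum_sub_distrib]
      simp [hx]
    rw [this]
    refine Finset.sum_le_sum fun y _ => ?_
    by_cases e : y = x
    · subst e
      rw [aa_self]
      rcases h y with hy | hy <;> simp [hy]
    · rw [if_neg e, sub_zero]
      have h1 := aa_le G x y
      rcases h x with hx | hx <;> rcases h y with hy | hy <;> rw [hx, hy] <;> simp [h1]
  have e3 : ∑ x ∈ A, ∑ y ∈ A, (σ x * σ y) = (∑ x ∈ A, σ x) * (∑ x ∈ A, σ x) := by
    rw [Finset.sum_mul_sum]
  have e4 : ∑ x ∈ A, (3 * σ x) = 3 * ∑ x ∈ A, σ x := by rw [Finset.mul_sum]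
  linarith

lemma four_le {σ : ℕ → ℤ} (h : ∀ x, 0 ≤ σ x) (hp : p ∈ A) (hq : q ∈ A) (hc : c ∈ A) (hd : d ∈ A)
    (pq : p ≠ q) (pc : p ≠ c) (pd : p ≠ d) (qc : q ≠ c) (qd : q ≠ d) (cd : c ≠ d) :
    σ p + σ q + σ c + σ d ≤ ∑ x ∈ A, σ x := by
  have : ∑ x ∈ ({p, q, c, d} : Finset ℕ), σ x ≤ ∑ x ∈ A, σ x := by
    apply Finset.sum_le_sum_of_subset_of_nonneg
    · intro x hx
      simp only [Finset.mem_insert, Finset.mem_singleton] at hx
      rcases hx with rfl | rfl | rfl | rfl <;> assumption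
    · intro x _ _; exact h x
  rw [Finset.sum_insert (by simp [pq, pc, pd]), Finset.sum_insert (by simp [qc, qd]),
    Finset.sum_insert (by simp [cd]), Finset.sum_singleton] at this
  linarith

theorem Core.ins (hC : Core A G) (F : Fresh A G p q c d r w) :
    Core (insert r (insert w A)) (ins G p q c d r w) := by
  have hs := hC.supp
  have hp := hs _ _ F.pq
  have hq := hs _ _ F.pq.symm
  have hc := hs _ _ F.cd
  have hd := hs _ _ F.cd.symm
  have rw' := F.rw
  have hr : r ∉ insert w A := by simp [F.rA, rw']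
  refine ⟨?_, ?_, ?_⟩
  · intro x y h
    rcases h with h | h
    · simp [hs _ _ h.1]
    · simp only [Eq2] at h
      simp only [Finset.mem_insert]
      rcases h.2 with h | h | h | h | h <;> rcases h with h | h <;> simp [h.1, hp, hq, hc, hd]
  · intro x hx
    have := sum_ins hs F (fun a _ => if a = x then 1 else 0)
    have e1 : ∑ a ∈ insert r (insert w A), ∑ y ∈ insert r (insert w A),
        aa (Hist.ins G p q c d r w) a y * (if a = x then 1 else 0) =
        ∑ y ∈ insert r (insert w A), aa (Hist.ins G p q c d r w) x y := by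
      rw [Finset.sum_eq_single x]
      · simp
      · intro b _ hb; simp [hb]
      · intro h; exact absurd hx h
    rw [e1] at this
    rw [this]
    by_cases xA : x ∈ A
    · have e2 : ∑ a ∈ A, ∑ y ∈ A, aa G a y * (if a = x then (1:ℤ) else 0) = 3 := by
        rw [Finset.sum_eq_single x]
        · simp [hC.cubic x xA]
        · intro b _ hb; simp [hb]
        · intro h; exact absurd xA h
      rw [e2]
      have xr : r ≠ x := fun h => F.rA (h ▸ xA)
      have xw : w ≠ x := fun h => F.wA (h ▸ xA)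
      simp only [xr, xw, if_false]
      ring
    · have e2 : ∑ a ∈ A, ∑ y ∈ A, aa G a y * (if a = x then (1:ℤ) else 0) = 0 := by
        apply Finset.sum_eq_zero
        intro b hb
        have : b ≠ x := fun h => xA (h ▸ hb)
        simp [this]
      rw [e2]
      have xp : p ≠ x := fun h => xA (h ▸ hp)
      have xq : q ≠ x := fun h => xA (h ▸ hq)
      have xc : c ≠ x := fun h => xA (h ▸ hc)
      have xd : d ≠ x := fun h => xA (h ▸ hd)
      simp only [Finset.mem_insert, xA, or_false] at hx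
      rcases hx with rfl | rfl
      · simp [xp, xq, xc, xd, rw'.symm]
      · simp [xp, xq, xc, xd, rw']
  · intro σ hσ h1 h2
    have key := sum_ins hs F (fun x y => σ x * (1 - σ y))
    change 4 ≤ ∑ x ∈ insert r (insert w A), ∑ y ∈ insert r (insert w A),
        aa (Hist.ins G p q c d r w) x y * (σ x * (1 - σ y))
    rw [key]
    change 4 ≤ cutv A G σ + _ - _
    rw [Finset.sum_insert hr, Finset.sum_insert F.wA] at h1 h2
    have hσ' : ∀ x, 1 - σ x = 0 ∨ 1 - σ x = 1 := fun x => by rcases hσ x with h | h <;> simp [h]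
    have g0 := cutv_nonneg A G σ hσ
    have g1 := cutv_ge hC.cubic σ hσ
    have g2 := cutv_ge hC.cubic (fun x => 1 - σ x) hσ'
    rw [cutv_compl] at g2
    have g3 := hC.cut σ hσ
    have g4 := four_le (A := A) (σ := σ) (fun x => by rcases hσ x with h | h <;> simp [h])
      hp hq hc hd F.pq.ne F.pc F.pd F.qc F.qd F.cd.ne
    have g5 := four_le (A := A) (σ := fun x => 1 - σ x)
      (fun x => by rcases hσ x with h | h <;> simp [h])
      hp hq hc hd F.pq.ne F.pc F.pd F.qc F.qd F.cd.ne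
    have n1 : 0 ≤ ∑ x ∈ A, σ x := Finset.sum_nonneg fun x _ => by
      rcases hσ x with h | h <;> simp [h]
    have n2 : 0 ≤ ∑ x ∈ A, (1 - σ x) := Finset.sum_nonneg fun x _ => by
      rcases hσ' x with h | h <;> simp [h]
    generalize hk : ∑ x ∈ A, σ x = k at *
    generalize hm : ∑ x ∈ A, (1 - σ x) = m at *
    generalize hC' : cutv A G σ = C at *
    have k1 : k = 1 → 3 ≤ C := by rintro rfl; linarith
    have m1 : m = 1 → 3 ≤ C := by rintro rfl; linarith
    clear g1 g2
    rcases hσ p with h_p | h_p <;> rcases hσ q with h_q | h_q <;> rcases hσ c with h_c | h_c <;>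
      rcases hσ d with h_d | h_d <;> rcases hσ r with h_r | h_r <;> rcases hσ w with h_w | h_w <;>
      simp only [h_p, h_q, h_c, h_d, h_r, h_w] at * <;> norm_num at * <;>
      (by_cases c1 : 2 ≤ k <;> by_cases c2 : 2 ≤ m <;>
        first
        | (have := g3 c1 c2; omega)
        | omega)

end

end Pool.Agent.Helper80.Hist
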