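import Pool.Agent.Helper80.Hist.DR33
import Pool.Agent.Helper14.Hist.Grow
import Pool.Agent.Helper42.Hist.B5
import Pool.Agent.Helper42.Hist.B67

namespace Pool.Agent.Helper80.Hist

theorem base_cover (b : Bin) (h : FF 30 ≤ b.n) : ∃ t : LT ℕ, Good t ∧ EmbE t.unl b := by
  rcases path 30 b h with ⟨b', hs, hr⟩ | ⟨X, hX, hω⟩
  · refine ⟨DA.t, DA.good, b', hs, ?_⟩
    rw [DA.unl]
    exact run_cat false DA.fl b' hr
  · simp only [pieces, List.mem_cons, List.not_mem_nil, or_false] at hX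
    rcases hX with rfl | rfl | rfl | rfl | rfl | rfl | rfl | rfl | rfl | rfl | rfl
    · exact ⟨DD.t, DD.good, DD.unl ▸ hω _ (by decide)⟩
    · exact ⟨DR01.t, DR01.good, DR01.unl ▸ hω _ (by decide)⟩
    · exact ⟨DR02.t, DR02.good, DR02.unl ▸ hω _ (by decide)⟩
    · exact ⟨DR03.t, DR03.good, DR03.unl ▸ hω _ (by decide)⟩
    · exact ⟨DR11.t, DR11.good, DR11.unl ▸ hω _ (by decide)⟩
    · exact ⟨DR12.t, DR12.good, DR12.unl ▸ hω _ (by decide)⟩
    · exact ⟨DR13.t, DR13.good, DR13.unl ▸ hω _ (by decide)⟩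
    · exact ⟨DR22.t, DR22.good, DR22.unl ▸ hω _ (by decide)⟩
    · exact ⟨DR23.t, DR23.good, DR23.unl ▸ hω _ (by decide)⟩
    · exact ⟨DR33.t, DR33.good, DR33.unl ▸ hω _ (by decide)⟩
    · exact ⟨DS.t, DS.good, DS.unl ▸ hω _ (by decide)⟩

theorem growth : Grow := by
  rintro fs t ⟨G, P, h⟩ hp
  obtain ⟨r, w, G', h'⟩ := h.grow hp
  exact ⟨r, w, G', P, h'⟩

/-- every large plain binary tree carries a labelled tree in a snark -/
theorem exists_good (b : Bin) (h : FF 30 ≤ b.n) : ∃ t : LT ℕ, t.shape = b ∧ Good t := by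
  obtain ⟨t, h1, h2⟩ := base_cover b h
  exact grow_E growth h1 h2

/-- a colouring of the induced graph gives a colouring of any subgraph -/
theorem col_of {A : Finset ℕ} {G P : SimpleGraph ℕ} (hs : ∀ x y, G.Adj x y → x ∈ A)
    (hP : ∀ x y, P.Adj x y → G.Adj x y)
    (h : ThreeEdgeColourable (G.comap (Subtype.val : {x // x ∈ A} → ℕ))) : Col P := by
  classical
  obtain ⟨c, hc⟩ := h
  let c' : Sym2 ℕ → Fin 3 := fun e =>
    if h : ∃ e' : Sym2 {x // x ∈ A}, e'.map Subtype.val = e then c h.choose else 0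
  have key : ∀ x y (hx : x ∈ A) (hy : y ∈ A), c' s(x, y) = c s(⟨x, hx⟩, ⟨y, hy⟩) := by
    intro x y hx hy
    have h : ∃ e' : Sym2 {x // x ∈ A}, e'.map Subtype.val = s(x, y) :=
      ⟨s(⟨x, hx⟩, ⟨y, hy⟩), by simp⟩
    have h1 : c' s(x, y) = c h.choose := by simp only [c']; rw [dif_pos h]
    rw [h1]
    congr 1
    apply Sym2.map.injective Subtype.val_injective
    rw [h.choose_spec]
    simp
  refine ⟨c', fun x y z h1 h2 h3 => ?_⟩
  have gx := hP _ _ h1
  have gy := hP _ _ h2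
  have ax := hs _ _ gx
  have ay := hs _ _ gx.symm
  have az := hs _ _ gy.symm
  rw [key x y ax ay, key x z ax az]
  exact hc ⟨x, ax⟩ ⟨y, ay⟩ ⟨z, az⟩ gx gy (fun h => h3 (by simpa using h))

end Pool.Agent.Helper80.Hist
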