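import Pool.Agent.Helper80.Hist.Base

namespace Pool.Agent.Helper80.Hist.DA

set_option maxRecDepth 100000

def t : LT ℕ := .node 1 false false (.leaf 2) (.node 3 false false (.leaf 4) (.node 5 false false
  (.leaf 6) (.node 7 false false (.leaf 8) (.node 9 true true (.leaf 10) (.node 11 true true
  (.leaf 12) (.node 13 true true (.leaf 14) (.node 15 true true (.leaf 16) (.node 17 true false
  (.leaf 18) (.node 19 false false (.leaf 20) (.node 21 false false (.leaf 22) (.node 23 true true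
  (.leaf 24) (.node 25 true true (.leaf 26) (.node 27 true true (.leaf 28) (.node 29 true false
  (.leaf 30) (.node 31 false false (.leaf 32) (.node 33 false false (.leaf 34) (.node 35 false
  false (.leaf 36) (.node 37 false false (.leaf 38) (.node 39 false false (.leaf 40) (.leaf
  41))))))))))))))))))))

def E : List (ℕ × ℕ) := [(0, 1), (1, 2), (1, 3), (3, 4), (3, 5), (5, 6), (5, 7), (7, 8), (7, 9),
  (9, 10), (9, 11), (11, 12), (11, 13), (13, 14), (13, 15), (15, 16), (15, 17), (17, 18), (17,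
  19), (19, 20), (19, 21), (21, 22), (21, 23), (23, 24), (23, 25), (25, 26), (25, 27), (27, 28),
  (27, 29), (29, 30), (29, 31), (31, 32), (31, 33), (33, 34), (33, 35), (35, 36), (35, 37), (37,
  38), (37, 39), (39, 40), (39, 41), (10, 14), (14, 18), (18, 12), (12, 16), (16, 26), (26, 30),
  (30, 24), (24, 28), (28, 10), (41, 4), (4, 20), (20, 0), (0, 8), (8, 32), (32, 6), (6, 38), (38,
  34), (34, 22), (22, 40), (40, 2), (2, 36), (36, 41)]

def C : List (ℕ × ℕ) := [(10, 14), (14, 18), (18, 12), (12, 16), (16, 26), (26, 30), (30, 24),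
  (24, 28), (28, 10), (9, 10), (9, 11), (11, 12), (11, 13), (13, 14), (13, 15), (15, 16), (15,
  17), (17, 18), (23, 24), (23, 25), (25, 26), (25, 27), (27, 28), (27, 29), (29, 30)]

def st : List Stp := [⟨5, 34, 40, 33, 6, 2⟩, ⟨34, 40, 5, 33, 22, 23⟩, ⟨23, 33, 2, 6, 27, 0⟩, ⟨23,
  5, 27, 0, 24, 28⟩, ⟨5, 24, 0, 28, 12, 14⟩, ⟨23, 27, 12, 24, 25, 26⟩, ⟨0, 6, 5, 12, 8, 7⟩, ⟨7,
  12, 14, 0, 11, 13⟩, ⟨26, 24, 27, 33, 30, 29⟩, ⟨13, 0, 14, 12, 17, 18⟩, ⟨0, 2, 40, 5, 1, 3⟩, ⟨17,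
  0, 3, 40, 20, 4⟩, ⟨33, 2, 40, 4, 35, 39⟩, ⟨17, 20, 22, 23, 19, 21⟩, ⟨6, 34, 35, 39, 38, 37⟩,
  ⟨13, 17, 12, 26, 15, 16⟩, ⟨39, 4, 35, 2, 41, 36⟩, ⟨7, 11, 14, 28, 9, 10⟩, ⟨8, 6, 29, 33, 32,
  31⟩]

def Fr : List (ℕ × ℕ) := [(41, 4), (4, 41), (4, 20), (20, 4), (20, 0), (0, 20), (0, 8), (8, 0),
  (8, 32), (32, 8), (32, 6), (6, 32), (6, 38), (38, 6), (38, 34), (34, 38), (34, 22), (22, 34),
  (22, 40), (40, 22), (40, 2), (2, 40), (2, 36), (36, 2), (36, 41), (41, 36)]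

def Ys : List YG := []

def its : List It := [⟨11, 12, [], []⟩, ⟨18, 12, [0], []⟩, ⟨12, 16, [0, 1], []⟩, ⟨16, 26, [0],
  []⟩, ⟨15, 16, [0, 1], []⟩, ⟨14, 18, [3], []⟩, ⟨17, 18, [0, 4], []⟩, ⟨15, 17, [0, 2], []⟩, ⟨13,
  15, [0, 3], []⟩, ⟨13, 14, [0, 3], []⟩, ⟨11, 13, [0, 1, 9], []⟩, ⟨9, 11, [0, 10], []⟩, ⟨10, 14,
  [2, 6], []⟩, ⟨9, 10, [0, 1], []⟩, ⟨28, 10, [0, 1], []⟩, ⟨26, 30, [11], []⟩, ⟨25, 26, [0, 12],
  []⟩, ⟨29, 30, [1], []⟩, ⟨30, 24, [0, 2], []⟩, ⟨24, 28, [0, 4], []⟩, ⟨27, 28, [0, 5], []⟩, ⟨27,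
  29, [0, 3], []⟩, ⟨25, 27, [0, 1, 5], []⟩, ⟨23, 25, [0, 6], []⟩, ⟨23, 24, [0, 4, 5], []⟩]

theorem unc : ¬ Col (ofList C) :=
  not_col (Ys := Ys) (its := its) (by decide +kernel) (by decide +kernel) (by decide +kernel)

theorem ok : baseOK t E C 5 33 34 40 st Fr = true := by decide +kernel

theorem good : Good t := ⟨_, _, base_good ok unc⟩

def fl : List (Bool × Bool) := [(false, false), (false, false), (false, false), (false, false),
  (true, true), (true, true), (true, true), (true, true), (true, false), (false, false), (false,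
  false), (true, true), (true, true), (true, true), (true, false), (false, false), (false, false),
  (false, false), (false, false)]

theorem unl : t.unl = cat (fl ++ [(false, false)]) := rfl

end Pool.Agent.Helper80.Hist.DA
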