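import Pool.Agent.Helper80.Hist.DR01

namespace Pool.Agent.Helper80.Hist.DR02

set_option maxRecDepth 100000

def t : LT ℕ := .node 1 false false (.leaf 2) (.node 3 false false (.leaf 4) (.node 5 false false
  (.node 6 true true (.leaf 7) (.leaf 8)) (.node 9 false false (.leaf 10) (.node 11 false false
  (.node 12 true true (.leaf 13) (.leaf 14)) (.node 15 false false (.leaf 16) (.node 17 false
  false (.node 18 true true (.leaf 19) (.leaf 20)) (.node 21 false false (.leaf 22) (.node 23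
  false false (.node 24 true true (.leaf 25) (.leaf 26)) (.node 27 false false (.leaf 28) (.node
  29 false false (.node 30 true true (.leaf 31) (.leaf 32)) (.node 33 false false (.leaf 34)
  (.node 35 false false (.node 36 true true (.leaf 37) (.leaf 38)) (.node 39 false false (.leaf
  40) (.node 41 false false (.leaf 42) (.node 43 false false (.leaf 44) (.node 45 false false
  (.leaf 46) (.node 47 false false (.leaf 48) (.node 49 true true (.leaf 50) (.node 51 true true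
  (.node 52 true true (.leaf 53) (.leaf 54)) (.node 55 true true (.node 56 true true (.leaf 57)
  (.leaf 58)) (.leaf 59)))))))))))))))))))))

def E : List (ℕ × ℕ) := [(0, 1), (1, 2), (1, 3), (3, 4), (3, 5), (5, 6), (6, 7), (6, 8), (5, 9),
  (9, 10), (9, 11), (11, 12), (12, 13), (12, 14), (11, 15), (15, 16), (15, 17), (17, 18), (18,
  19), (18, 20), (17, 21), (21, 22), (21, 23), (23, 24), (24, 25), (24, 26), (23, 27), (27, 28),
  (27, 29), (29, 30), (30, 31), (30, 32), (29, 33), (33, 34), (33, 35), (35, 36), (36, 37), (36,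
  38), (35, 39), (39, 40), (39, 41), (41, 42), (41, 43), (43, 44), (43, 45), (45, 46), (45, 47),
  (47, 48), (47, 49), (49, 50), (49, 51), (51, 52), (52, 53), (52, 54), (51, 55), (55, 56), (56,
  57), (56, 58), (55, 59), (53, 14), (14, 20), (20, 58), (58, 13), (13, 19), (19, 53), (57, 32),
  (32, 37), (37, 59), (59, 31), (31, 38), (38, 57), (50, 25), (25, 7), (7, 54), (54, 26), (26, 8),
  (8, 50), (16, 0), (0, 46), (46, 42), (42, 10), (10, 2), (2, 34), (34, 48), (48, 44), (44, 40),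
  (40, 22), (22, 4), (4, 28), (28, 16)]

def C : List (ℕ × ℕ) := [(53, 14), (14, 20), (20, 58), (58, 13), (13, 19), (19, 53), (57, 32),
  (32, 37), (37, 59), (59, 31), (31, 38), (38, 57), (50, 25), (25, 7), (7, 54), (54, 26), (26, 8),
  (8, 50), (6, 7), (6, 8), (12, 13), (12, 14), (18, 19), (18, 20), (24, 25), (24, 26), (30, 31),
  (30, 32), (36, 37), (36, 38), (49, 50), (49, 51), (51, 52), (51, 55), (52, 53), (52, 54), (55,
  56), (55, 59), (56, 57), (56, 58)]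

def st : List Stp := [⟨2, 16, 41, 1, 52, 54⟩, ⟨52, 2, 41, 54, 51, 49⟩, ⟨51, 2, 41, 16, 56, 28⟩,
  ⟨28, 56, 2, 41, 30, 34⟩, ⟨16, 52, 54, 1, 17, 26⟩, ⟨17, 52, 56, 2, 18, 58⟩, ⟨30, 34, 51, 56, 31,
  55⟩, ⟨2, 58, 18, 52, 13, 19⟩, ⟨13, 2, 41, 49, 10, 42⟩, ⟨41, 34, 42, 49, 43, 45⟩, ⟨49, 54, 1, 26,
  50, 8⟩, ⟨1, 8, 50, 54, 6, 7⟩, ⟨45, 49, 34, 43, 47, 48⟩, ⟨1, 6, 41, 28, 3, 4⟩, ⟨41, 4, 43, 48,
  40, 44⟩, ⟨18, 58, 10, 13, 20, 12⟩, ⟨55, 31, 30, 56, 59, 32⟩, ⟨34, 31, 56, 32, 38, 57⟩, ⟨17, 26,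
  40, 4, 21, 22⟩, ⟨40, 41, 34, 38, 39, 35⟩, ⟨12, 20, 52, 19, 14, 53⟩, ⟨10, 12, 3, 6, 9, 5⟩, ⟨34,
  35, 28, 30, 33, 29⟩, ⟨16, 17, 9, 12, 15, 11⟩, ⟨32, 59, 35, 38, 37, 36⟩, ⟨21, 26, 50, 7, 24, 25⟩,
  ⟨28, 29, 21, 24, 27, 23⟩, ⟨1, 16, 45, 42, 0, 46⟩]

def Fr : List (ℕ × ℕ) := [(16, 0), (0, 16), (0, 46), (46, 0), (46, 42), (42, 46), (42, 10), (10,
  42), (10, 2), (2, 10), (2, 34), (34, 2), (34, 48), (48, 34), (48, 44), (44, 48), (44, 40), (40,
  44), (40, 22), (22, 40), (22, 4), (4, 22), (4, 28), (28, 4), (28, 16), (16, 28)]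

def Ys : List YG := [⟨53, 14, 20, 58, 13, 19, 12, 18, 52, 56⟩, ⟨57, 32, 37, 59, 31, 38, 30, 36,
  56, 55⟩, ⟨50, 25, 7, 54, 26, 8, 24, 6, 49, 52⟩]

def its : List It := [⟨58, 56, [], []⟩, ⟨53, 52, [], [0]⟩, ⟨51, 52, [0], []⟩, ⟨54, 52, [0, 1],
  []⟩, ⟨50, 49, [], [0]⟩, ⟨49, 51, [0, 2], []⟩, ⟨51, 55, [0, 3], []⟩, ⟨55, 56, [0, 6], []⟩, ⟨59,
  55, [0, 1], []⟩, ⟨57, 56, [1, 8], [0]⟩]

theorem unc : ¬ Col (ofList C) :=
  not_col (Ys := Ys) (its := its) (by decide +kernel) (by decide +kernel) (by decide +kernel)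

theorem ok : baseOK t E C 1 2 16 41 st Fr = true := by decide +kernel

theorem good : Good t := ⟨_, _, base_good ok unc⟩

def om : List Bool := [false, false, true, false, true, false, true, false, true, false, true,
  false, true, false, false, false, false, false]

theorem unl : t.unl = chain om (pR 0 2) := rfl

end Pool.Agent.Helper80.Hist.DR02
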