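import Pool.Agent.Helper80.Hist.DR03

namespace Pool.Agent.Helper80.Hist.DR12

set_option maxRecDepth 100000

def t : LT ℕ := .node 1 false false (.leaf 2) (.node 3 false false (.leaf 4) (.node 5 false false
  (.node 6 true true (.leaf 7) (.leaf 8)) (.node 9 false false (.leaf 10) (.node 11 false false
  (.node 12 true true (.leaf 13) (.leaf 14)) (.node 15 false false (.leaf 16) (.node 17 false
  false (.node 18 true true (.leaf 19) (.leaf 20)) (.node 21 false false (.leaf 22) (.node 23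
  false false (.node 24 true true (.leaf 25) (.leaf 26)) (.node 27 false false (.leaf 28) (.node
  29 false false (.node 30 true true (.leaf 31) (.leaf 32)) (.node 33 false false (.leaf 34)
  (.node 35 false false (.node 36 true true (.leaf 37) (.leaf 38)) (.node 39 false false (.leaf
  40) (.node 41 false false (.node 42 true true (.leaf 43) (.leaf 44)) (.node 45 false false
  (.leaf 46) (.node 47 false false (.node 48 true true (.leaf 49) (.leaf 50)) (.node 51 false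
  false (.leaf 52) (.node 53 false false (.leaf 54) (.node 55 false false (.leaf 56) (.node 57
  true true (.node 58 true true (.node 59 true true (.leaf 60) (.leaf 61)) (.leaf 62)) (.node 63
  true true (.node 64 true true (.leaf 65) (.leaf 66)) (.node 67 true true (.node 68 true true
  (.leaf 69) (.leaf 70)) (.leaf 71)))))))))))))))))))))))

def E : List (ℕ × ℕ) := [(0, 1), (1, 2), (1, 3), (3, 4), (3, 5), (5, 6), (6, 7), (6, 8), (5, 9),
  (9, 10), (9, 11), (11, 12), (12, 13), (12, 14), (11, 15), (15, 16), (15, 17), (17, 18), (18,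
  19), (18, 20), (17, 21), (21, 22), (21, 23), (23, 24), (24, 25), (24, 26), (23, 27), (27, 28),
  (27, 29), (29, 30), (30, 31), (30, 32), (29, 33), (33, 34), (33, 35), (35, 36), (36, 37), (36,
  38), (35, 39), (39, 40), (39, 41), (41, 42), (42, 43), (42, 44), (41, 45), (45, 46), (45, 47),
  (47, 48), (48, 49), (48, 50), (47, 51), (51, 52), (51, 53), (53, 54), (53, 55), (55, 56), (55,
  57), (57, 58), (58, 59), (59, 60), (59, 61), (58, 62), (57, 63), (63, 64), (64, 65), (64, 66),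
  (63, 67), (67, 68), (68, 69), (68, 70), (67, 71), (70, 19), (19, 44), (44, 65), (65, 20), (20,
  43), (43, 70), (61, 50), (50, 32), (32, 66), (66, 49), (49, 31), (31, 61), (69, 8), (8, 25),
  (25, 62), (62, 7), (7, 26), (26, 69), (71, 37), (37, 13), (13, 60), (60, 38), (38, 14), (14,
  71), (16, 34), (34, 2), (2, 40), (40, 28), (28, 22), (22, 52), (52, 4), (4, 54), (54, 46), (46,
  10), (10, 56), (56, 0), (0, 16)]

def C : List (ℕ × ℕ) := [(70, 19), (19, 44), (44, 65), (65, 20), (20, 43), (43, 70), (61, 50),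
  (50, 32), (32, 66), (66, 49), (49, 31), (31, 61), (69, 8), (8, 25), (25, 62), (62, 7), (7, 26),
  (26, 69), (71, 37), (37, 13), (13, 60), (60, 38), (38, 14), (14, 71), (6, 7), (6, 8), (12, 13),
  (12, 14), (18, 19), (18, 20), (24, 25), (24, 26), (30, 31), (30, 32), (36, 37), (36, 38), (42,
  43), (42, 44), (48, 49), (48, 50), (57, 58), (57, 63), (58, 59), (58, 62), (59, 60), (59, 61),
  (63, 64), (63, 67), (64, 65), (64, 66), (67, 68), (67, 71), (68, 69), (68, 70)]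

def st : List Stp := [⟨52, 57, 53, 71, 24, 14⟩, ⟨71, 52, 57, 24, 3, 7⟩, ⟨14, 24, 53, 57, 11, 55⟩,
  ⟨71, 3, 14, 53, 33, 35⟩, ⟨35, 53, 11, 55, 46, 10⟩, ⟨71, 33, 11, 14, 13, 12⟩, ⟨52, 53, 13, 33,
  51, 61⟩, ⟨11, 24, 3, 7, 8, 6⟩, ⟨35, 14, 71, 13, 36, 37⟩, ⟨11, 8, 35, 46, 44, 41⟩, ⟨3, 6, 10, 11,
  5, 9⟩, ⟨33, 3, 11, 44, 34, 15⟩, ⟨57, 71, 44, 8, 63, 65⟩, ⟨57, 7, 13, 61, 58, 59⟩, ⟨24, 52, 61,
  33, 27, 29⟩, ⟨63, 65, 51, 61, 64, 50⟩, ⟨3, 34, 27, 52, 2, 28⟩, ⟨2, 3, 55, 10, 1, 56⟩, ⟨24, 8,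
  58, 7, 25, 62⟩, ⟨65, 8, 15, 44, 20, 18⟩, ⟨28, 52, 24, 27, 22, 23⟩, ⟨41, 46, 50, 51, 45, 47⟩,
  ⟨36, 14, 59, 13, 38, 60⟩, ⟨3, 52, 53, 46, 4, 54⟩, ⟨50, 64, 29, 61, 32, 30⟩, ⟨41, 44, 20, 8, 42,
  43⟩, ⟨15, 18, 22, 23, 17, 21⟩, ⟨8, 43, 18, 44, 70, 19⟩, ⟨15, 34, 1, 56, 16, 0⟩, ⟨63, 71, 8, 70,
  67, 68⟩, ⟨47, 50, 30, 61, 48, 31⟩, ⟨68, 8, 24, 7, 69, 26⟩, ⟨35, 41, 2, 28, 39, 40⟩, ⟨64, 32, 48,
  31, 66, 49⟩]

def Fr : List (ℕ × ℕ) := [(16, 34), (34, 16), (34, 2), (2, 34), (2, 40), (40, 2), (40, 28), (28,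
  40), (28, 22), (22, 28), (22, 52), (52, 22), (52, 4), (4, 52), (4, 54), (54, 4), (54, 46), (46,
  54), (46, 10), (10, 46), (10, 56), (56, 10), (56, 0), (0, 56), (0, 16), (16, 0)]

def Ys : List YG := [⟨70, 19, 44, 65, 20, 43, 18, 42, 68, 64⟩, ⟨61, 50, 32, 66, 49, 31, 48, 30,
  59, 64⟩, ⟨69, 8, 25, 62, 7, 26, 6, 24, 68, 58⟩, ⟨71, 37, 13, 60, 38, 14, 36, 12, 67, 59⟩]

def its : List It := [⟨61, 59, [], []⟩, ⟨66, 64, [], [0]⟩, ⟨58, 59, [1], []⟩, ⟨60, 59, [0, 2],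
  []⟩, ⟨71, 67, [], [0]⟩, ⟨65, 64, [3], []⟩, ⟨70, 68, [], [0]⟩, ⟨63, 64, [1, 5], []⟩, ⟨63, 67, [0,
  3], []⟩, ⟨67, 68, [0, 2, 4], []⟩, ⟨57, 63, [1, 2], []⟩, ⟨69, 68, [1, 4], []⟩, ⟨62, 58, [9],
  [0]⟩, ⟨57, 58, [0, 2, 10], []⟩]

theorem unc : ¬ Col (ofList C) :=
  not_col (Ys := Ys) (its := its) (by decide +kernel) (by decide +kernel) (by decide +kernel)

theorem ok : baseOK t E C 52 53 57 71 st Fr = true := by decide +kernel

theorem good : Good t := ⟨_, _, base_good ok unc⟩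

def om : List Bool := [false, false, true, false, true, false, true, false, true, false, true,
  false, true, false, true, false, true, false, false, false]

theorem unl : t.unl = chain om (pR 1 2) := rfl

end Pool.Agent.Helper80.Hist.DR12
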