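import Pool.Agent.Helper80.Hist.DS

namespace Pool.Agent.Helper80.Hist.DR23

set_option maxRecDepth 100000

def t : LT ℕ := .node 1 false false (.leaf 2) (.node 3 false false (.leaf 4) (.node 5 false false
  (.node 6 true true (.leaf 7) (.leaf 8)) (.node 9 false false (.leaf 10) (.node 11 false false
  (.node 12 true true (.leaf 13) (.leaf 14)) (.node 15 false false (.leaf 16) (.node 17 false
  false (.node 18 true true (.leaf 19) (.leaf 20)) (.node 21 false false (.leaf 22) (.node 23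
  false false (.node 24 true true (.leaf 25) (.leaf 26)) (.node 27 false false (.leaf 28) (.node
  29 false false (.node 30 true true (.leaf 31) (.leaf 32)) (.node 33 false false (.leaf 34)
  (.node 35 false false (.node 36 true true (.leaf 37) (.leaf 38)) (.node 39 false false (.leaf
  40) (.node 41 false false (.node 42 true true (.leaf 43) (.leaf 44)) (.node 45 false false
  (.leaf 46) (.node 47 false false (.node 48 true true (.leaf 49) (.leaf 50)) (.node 51 false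
  false (.leaf 52) (.node 53 false false (.node 54 true true (.leaf 55) (.leaf 56)) (.node 57
  false false (.leaf 58) (.node 59 false false (.node 60 true true (.leaf 61) (.leaf 62)) (.node
  63 false false (.leaf 64) (.node 65 false false (.node 66 true true (.leaf 67) (.leaf 68))
  (.node 69 false false (.leaf 70) (.node 71 false false (.node 72 true true (.leaf 73) (.leaf
  74)) (.node 75 false false (.leaf 76) (.node 77 true true (.node 78 true true (.node 79 true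
  true (.leaf 80) (.leaf 81)) (.node 82 true true (.node 83 true true (.leaf 84) (.leaf 85))
  (.leaf 86))) (.node 87 true true (.node 88 true true (.leaf 89) (.leaf 90)) (.node 91 true true
  (.node 92 true true (.leaf 93) (.leaf 94)) (.node 95 true true (.node 96 true true (.leaf 97)
  (.leaf 98)) (.leaf 99))))))))))))))))))))))))))))))

def E : List (ℕ × ℕ) := [(0, 1), (1, 2), (1, 3), (3, 4), (3, 5), (5, 6), (6, 7), (6, 8), (5, 9),
  (9, 10), (9, 11), (11, 12), (12, 13), (12, 14), (11, 15), (15, 16), (15, 17), (17, 18), (18,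
  19), (18, 20), (17, 21), (21, 22), (21, 23), (23, 24), (24, 25), (24, 26), (23, 27), (27, 28),
  (27, 29), (29, 30), (30, 31), (30, 32), (29, 33), (33, 34), (33, 35), (35, 36), (36, 37), (36,
  38), (35, 39), (39, 40), (39, 41), (41, 42), (42, 43), (42, 44), (41, 45), (45, 46), (45, 47),
  (47, 48), (48, 49), (48, 50), (47, 51), (51, 52), (51, 53), (53, 54), (54, 55), (54, 56), (53,
  57), (57, 58), (57, 59), (59, 60), (60, 61), (60, 62), (59, 63), (63, 64), (63, 65), (65, 66),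
  (66, 67), (66, 68), (65, 69), (69, 70), (69, 71), (71, 72), (72, 73), (72, 74), (71, 75), (75,
  76), (75, 77), (77, 78), (78, 79), (79, 80), (79, 81), (78, 82), (82, 83), (83, 84), (83, 85),
  (82, 86), (77, 87), (87, 88), (88, 89), (88, 90), (87, 91), (91, 92), (92, 93), (92, 94), (91,
  95), (95, 96), (96, 97), (96, 98), (95, 99), (90, 26), (26, 37), (37, 94), (94, 25), (25, 38),
  (38, 90), (99, 61), (61, 68), (68, 85), (85, 62), (62, 67), (67, 99), (80, 56), (56, 19), (19,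
  86), (86, 55), (55, 20), (20, 80), (89, 31), (31, 74), (74, 81), (81, 32), (32, 73), (73, 89),
  (97, 49), (49, 14), (14, 93), (93, 50), (50, 13), (13, 97), (84, 43), (43, 8), (8, 98), (98,
  44), (44, 7), (7, 84), (2, 76), (76, 10), (10, 22), (22, 58), (58, 40), (40, 28), (28, 46), (46,
  70), (70, 34), (34, 0), (0, 64), (64, 4), (4, 52), (52, 16), (16, 2)]

def C : List (ℕ × ℕ) := [(90, 26), (26, 37), (37, 94), (94, 25), (25, 38), (38, 90), (99, 61),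
  (61, 68), (68, 85), (85, 62), (62, 67), (67, 99), (80, 56), (56, 19), (19, 86), (86, 55), (55,
  20), (20, 80), (89, 31), (31, 74), (74, 81), (81, 32), (32, 73), (73, 89), (97, 49), (49, 14),
  (14, 93), (93, 50), (50, 13), (13, 97), (84, 43), (43, 8), (8, 98), (98, 44), (44, 7), (7, 84),
  (6, 7), (6, 8), (12, 13), (12, 14), (18, 19), (18, 20), (24, 25), (24, 26), (30, 31), (30, 32),
  (36, 37), (36, 38), (42, 43), (42, 44), (48, 49), (48, 50), (54, 55), (54, 56), (60, 61), (60,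
  62), (66, 67), (66, 68), (72, 73), (72, 74), (77, 78), (77, 87), (78, 79), (78, 82), (79, 80),
  (79, 81), (82, 83), (82, 86), (83, 84), (83, 85), (87, 88), (87, 91), (88, 89), (88, 90), (91,
  92), (91, 95), (92, 93), (92, 94), (95, 96), (95, 99), (96, 97), (96, 98)]

def st : List Stp := [⟨29, 50, 69, 47, 87, 75⟩, ⟨87, 50, 47, 75, 93, 42⟩, ⟨29, 47, 69, 75, 31,
  71⟩, ⟨69, 50, 87, 93, 67, 91⟩, ⟨75, 42, 50, 67, 3, 62⟩, ⟨62, 3, 67, 69, 63, 65⟩, ⟨29, 87, 50,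
  62, 24, 17⟩, ⟨42, 47, 75, 3, 41, 76⟩, ⟨47, 50, 42, 93, 48, 49⟩, ⟨17, 62, 47, 31, 19, 54⟩, ⟨54,
  31, 17, 19, 20, 18⟩, ⟨76, 41, 3, 42, 10, 5⟩, ⟨24, 87, 91, 93, 26, 92⟩, ⟨87, 26, 29, 24, 90, 38⟩,
  ⟨91, 67, 49, 42, 95, 96⟩, ⟨19, 62, 65, 67, 85, 66⟩, ⟨63, 62, 95, 67, 60, 99⟩, ⟨31, 71, 87, 90,
  89, 88⟩, ⟨49, 93, 17, 50, 14, 12⟩, ⟨92, 26, 24, 38, 94, 25⟩, ⟨60, 63, 47, 54, 59, 53⟩, ⟨42, 96,
  19, 85, 43, 83⟩, ⟨31, 20, 71, 89, 74, 72⟩, ⟨5, 42, 83, 43, 7, 84⟩, ⟨29, 69, 41, 47, 46, 45⟩,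
  ⟨69, 46, 63, 3, 70, 64⟩, ⟨3, 64, 12, 17, 4, 15⟩, ⟨47, 53, 4, 15, 51, 52⟩, ⟨54, 19, 74, 20, 56,
  80⟩, ⟨80, 74, 29, 31, 81, 30⟩, ⟨96, 43, 42, 7, 98, 44⟩, ⟨83, 19, 80, 81, 82, 79⟩, ⟨29, 38, 70,
  64, 33, 34⟩, ⟨10, 41, 53, 59, 58, 57⟩, ⟨76, 3, 34, 64, 1, 0⟩, ⟨1, 76, 15, 52, 2, 16⟩, ⟨82, 19,
  54, 20, 86, 55⟩, ⟨96, 49, 12, 50, 97, 13⟩, ⟨33, 38, 26, 94, 36, 37⟩, ⟨79, 82, 75, 87, 78, 77⟩,
  ⟨72, 89, 30, 81, 73, 32⟩, ⟨66, 85, 60, 99, 68, 61⟩, ⟨5, 7, 43, 98, 6, 8⟩, ⟨17, 24, 10, 58, 21,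
  22⟩, ⟨29, 46, 41, 58, 28, 40⟩, ⟨12, 15, 5, 10, 11, 9⟩, ⟨33, 36, 40, 41, 35, 39⟩, ⟨21, 24, 28,
  29, 23, 27⟩]

def Fr : List (ℕ × ℕ) := [(2, 76), (76, 2), (76, 10), (10, 76), (10, 22), (22, 10), (22, 58), (58,
  22), (58, 40), (40, 58), (40, 28), (28, 40), (28, 46), (46, 28), (46, 70), (70, 46), (70, 34),
  (34, 70), (34, 0), (0, 34), (0, 64), (64, 0), (64, 4), (4, 64), (4, 52), (52, 4), (52, 16), (16,
  52), (16, 2), (2, 16)]

def Ys : List YG := [⟨90, 26, 37, 94, 25, 38, 24, 36, 88, 92⟩, ⟨99, 61, 68, 85, 62, 67, 60, 66,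
  95, 83⟩, ⟨80, 56, 19, 86, 55, 20, 54, 18, 79, 82⟩, ⟨89, 31, 74, 81, 32, 73, 30, 72, 88, 79⟩,
  ⟨97, 49, 14, 93, 50, 13, 48, 12, 96, 92⟩, ⟨84, 43, 8, 98, 44, 7, 42, 6, 83, 96⟩]

def its : List It := [⟨85, 83, [], []⟩, ⟨99, 95, [], [0]⟩, ⟨84, 83, [1], []⟩, ⟨98, 96, [], [0]⟩,
  ⟨95, 96, [0, 2], []⟩, ⟨97, 96, [0, 1], []⟩, ⟨93, 92, [], [0]⟩, ⟨91, 95, [2, 5], []⟩, ⟨91, 92,
  [0, 1], []⟩, ⟨94, 92, [0, 2], []⟩, ⟨90, 88, [], [0]⟩, ⟨82, 83, [8, 10], []⟩, ⟨87, 91, [3, 4],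
  []⟩, ⟨87, 88, [0, 2], []⟩, ⟨89, 88, [0, 3], []⟩, ⟨81, 79, [], [0]⟩, ⟨77, 87, [2, 3], []⟩, ⟨86,
  82, [5], []⟩, ⟨80, 79, [2], [0]⟩, ⟨78, 79, [0, 3], []⟩, ⟨78, 82, [0, 2, 8], []⟩, ⟨77, 78, [0, 1,
  4], []⟩]

theorem unc : ¬ Col (ofList C) :=
  not_col (Ys := Ys) (its := its) (by decide +kernel) (by decide +kernel) (by decide +kernel)

theorem ok : baseOK t E C 29 47 50 69 st Fr = true := by decide +kernel

theorem good : Good t := ⟨_, _, base_good ok unc⟩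

def om : List Bool := [false, false, true, false, true, false, true, false, true, false, true,
  false, true, false, true, false, true, false, true, false, true, false, true, false, true,
  false]

theorem unl : t.unl = chain om (pR 2 3) := rfl

end Pool.Agent.Helper80.Hist.DR23
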