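import Pool.Agent.Helper80.Hist.DR22

namespace Pool.Agent.Helper80.Hist.DS

set_option maxRecDepth 100000

def t : LT ℕ := .node 1 false false (.leaf 2) (.node 3 false false (.leaf 4) (.node 5 false false
  (.node 6 true true (.leaf 7) (.leaf 8)) (.node 9 false false (.leaf 10) (.node 11 false false
  (.node 12 true true (.leaf 13) (.leaf 14)) (.node 15 false false (.leaf 16) (.node 17 false
  false (.node 18 true true (.leaf 19) (.leaf 20)) (.node 21 false false (.leaf 22) (.node 23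
  false false (.node 24 true true (.leaf 25) (.leaf 26)) (.node 27 false false (.leaf 28) (.node
  29 false false (.node 30 true true (.leaf 31) (.leaf 32)) (.node 33 false false (.leaf 34)
  (.node 35 false false (.node 36 true true (.leaf 37) (.leaf 38)) (.node 39 false false (.leaf
  40) (.node 41 false false (.node 42 true true (.leaf 43) (.leaf 44)) (.node 45 false false
  (.leaf 46) (.node 47 false false (.node 48 true true (.leaf 49) (.leaf 50)) (.node 51 false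
  false (.leaf 52) (.node 53 false false (.node 54 true true (.leaf 55) (.leaf 56)) (.node 57
  false false (.leaf 58) (.node 59 false false (.node 60 true true (.leaf 61) (.leaf 62)) (.node
  63 false false (.leaf 64) (.node 65 false false (.node 66 true true (.leaf 67) (.leaf 68))
  (.node 69 false false (.leaf 70) (.node 71 true true (.node 72 true true (.leaf 73) (.leaf 74))
  (.node 75 true true (.node 76 true true (.leaf 77) (.leaf 78)) (.node 79 true true (.node 80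
  true true (.leaf 81) (.leaf 82)) (.node 83 true false (.node 84 true true (.leaf 85) (.leaf 86))
  (.leaf 87))))))))))))))))))))))))))))

def E : List (ℕ × ℕ) := [(0, 1), (1, 2), (1, 3), (3, 4), (3, 5), (5, 6), (6, 7), (6, 8), (5, 9),
  (9, 10), (9, 11), (11, 12), (12, 13), (12, 14), (11, 15), (15, 16), (15, 17), (17, 18), (18,
  19), (18, 20), (17, 21), (21, 22), (21, 23), (23, 24), (24, 25), (24, 26), (23, 27), (27, 28),
  (27, 29), (29, 30), (30, 31), (30, 32), (29, 33), (33, 34), (33, 35), (35, 36), (36, 37), (36,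
  38), (35, 39), (39, 40), (39, 41), (41, 42), (42, 43), (42, 44), (41, 45), (45, 46), (45, 47),
  (47, 48), (48, 49), (48, 50), (47, 51), (51, 52), (51, 53), (53, 54), (54, 55), (54, 56), (53,
  57), (57, 58), (57, 59), (59, 60), (60, 61), (60, 62), (59, 63), (63, 64), (63, 65), (65, 66),
  (66, 67), (66, 68), (65, 69), (69, 70), (69, 71), (71, 72), (72, 73), (72, 74), (71, 75), (75,
  76), (76, 77), (76, 78), (75, 79), (79, 80), (80, 81), (80, 82), (79, 83), (83, 84), (84, 85),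
  (84, 86), (83, 87), (74, 55), (55, 49), (49, 81), (81, 56), (56, 50), (50, 74), (82, 43), (43,
  19), (19, 13), (13, 44), (44, 20), (20, 82), (14, 25), (25, 37), (37, 77), (77, 26), (26, 38),
  (38, 14), (78, 61), (61, 31), (31, 85), (85, 62), (62, 32), (32, 78), (86, 7), (7, 67), (67,
  73), (73, 8), (8, 68), (68, 86), (70, 2), (2, 22), (22, 64), (64, 0), (0, 16), (16, 58), (58,
  4), (4, 10), (10, 87), (87, 52), (52, 40), (40, 46), (46, 34), (34, 28), (28, 70)]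

def C : List (ℕ × ℕ) := [(74, 55), (55, 49), (49, 81), (81, 56), (56, 50), (50, 74), (82, 43),
  (43, 19), (19, 13), (13, 44), (44, 20), (20, 82), (14, 25), (25, 37), (37, 77), (77, 26), (26,
  38), (38, 14), (78, 61), (61, 31), (31, 85), (85, 62), (62, 32), (32, 78), (86, 7), (7, 67),
  (67, 73), (73, 8), (8, 68), (68, 86), (6, 7), (6, 8), (12, 13), (12, 14), (18, 19), (18, 20),
  (24, 25), (24, 26), (30, 31), (30, 32), (36, 37), (36, 38), (42, 43), (42, 44), (48, 49), (48,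
  50), (54, 55), (54, 56), (60, 61), (60, 62), (66, 67), (66, 68), (71, 72), (71, 75), (72, 73),
  (72, 74), (75, 76), (75, 79), (76, 77), (76, 78), (79, 80), (79, 83), (80, 81), (80, 82), (83,
  84), (84, 85), (84, 86)]

def st : List Stp := [⟨18, 67, 7, 41, 20, 77⟩, ⟨41, 67, 77, 7, 57, 78⟩, ⟨18, 7, 20, 67, 6, 73⟩,
  ⟨20, 77, 6, 18, 12, 11⟩, ⟨73, 20, 57, 67, 80, 58⟩, ⟨80, 20, 41, 18, 82, 43⟩, ⟨80, 73, 41, 57,
  81, 49⟩, ⟨77, 12, 57, 78, 26, 32⟩, ⟨26, 32, 77, 41, 27, 34⟩, ⟨34, 77, 12, 26, 37, 14⟩, ⟨58, 80,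
  6, 11, 10, 9⟩, ⟨67, 58, 6, 9, 0, 5⟩, ⟨0, 67, 78, 7, 66, 86⟩, ⟨78, 86, 27, 32, 31, 30⟩, ⟨73, 81,
  77, 78, 72, 76⟩, ⟨0, 66, 72, 76, 65, 71⟩, ⟨81, 72, 41, 49, 50, 48⟩, ⟨57, 49, 81, 50, 54, 56⟩,
  ⟨0, 5, 65, 71, 1, 69⟩, ⟨1, 69, 65, 0, 2, 64⟩, ⟨12, 20, 41, 43, 44, 42⟩, ⟨14, 37, 27, 26, 25,
  24⟩, ⟨1, 5, 58, 10, 3, 4⟩, ⟨31, 86, 80, 10, 84, 83⟩, ⟨24, 27, 2, 64, 23, 22⟩, ⟨48, 41, 83, 10,
  52, 87⟩, ⟨34, 37, 26, 14, 36, 38⟩, ⟨71, 76, 80, 83, 75, 79⟩, ⟨84, 31, 57, 32, 85, 62⟩, ⟨48, 52,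
  54, 57, 51, 53⟩, ⟨11, 18, 0, 58, 15, 16⟩, ⟨22, 23, 15, 18, 21, 17⟩, ⟨6, 73, 66, 86, 8, 68⟩, ⟨34,
  36, 27, 30, 33, 29⟩, ⟨41, 34, 48, 51, 45, 47⟩, ⟨12, 44, 18, 43, 13, 19⟩, ⟨54, 49, 72, 50, 55,
  74⟩, ⟨57, 62, 64, 65, 59, 63⟩, ⟨41, 52, 45, 34, 40, 46⟩, ⟨40, 41, 33, 36, 39, 35⟩, ⟨59, 62, 78,
  31, 60, 61⟩, ⟨27, 34, 69, 2, 28, 70⟩]

def Fr : List (ℕ × ℕ) := [(70, 2), (2, 70), (2, 22), (22, 2), (22, 64), (64, 22), (64, 0), (0,
  64), (0, 16), (16, 0), (16, 58), (58, 16), (58, 4), (4, 58), (4, 10), (10, 4), (10, 87), (87,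
  10), (87, 52), (52, 87), (52, 40), (40, 52), (40, 46), (46, 40), (46, 34), (34, 46), (34, 28),
  (28, 34), (28, 70), (70, 28)]

def Ys : List YG := [⟨74, 55, 49, 81, 56, 50, 54, 48, 72, 80⟩, ⟨82, 43, 19, 13, 44, 20, 42, 18,
  80, 12⟩, ⟨14, 25, 37, 77, 26, 38, 24, 36, 12, 76⟩, ⟨78, 61, 31, 85, 62, 32, 60, 30, 76, 84⟩,
  ⟨86, 7, 67, 73, 8, 68, 6, 66, 84, 72⟩]

def its : List It := [⟨86, 84, [], []⟩, ⟨73, 72, [], [0]⟩, ⟨85, 84, [1], []⟩, ⟨78, 76, [], [0]⟩,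
  ⟨83, 84, [1, 3], []⟩, ⟨71, 72, [3], []⟩, ⟨74, 72, [0, 4], []⟩, ⟨81, 80, [], [0]⟩, ⟨79, 83, [3],
  []⟩, ⟨79, 80, [0, 1], []⟩, ⟨75, 79, [0, 1], []⟩, ⟨75, 76, [0, 7], []⟩, ⟨71, 75, [0, 1, 6], []⟩,
  ⟨77, 76, [1, 9], []⟩, ⟨14, 12, [], [0]⟩, ⟨82, 80, [5, 7], []⟩, ⟨13, 12, [1], [0]⟩]

theorem unc : ¬ Col (ofList C) :=
  not_col (Ys := Ys) (its := its) (by decide +kernel) (by decide +kernel) (by decide +kernel)

theorem ok : baseOK t E C 7 18 41 67 st Fr = true := by decide +kernel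

theorem good : Good t := ⟨_, _, base_good ok unc⟩

def om : List Bool := [false, false, true, false, true, false, true, false, true, false, true,
  false, true, false, true, false, true, false, true, false, true, false, true, false]

theorem unl : t.unl = chain om (pS 3) := rfl

end Pool.Agent.Helper80.Hist.DS
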