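import Pool.Agent.Helper80.Hist.Tree

/-!
Definitions for the statement on 1,3-trees and snarks, and the interface of the proof.
-/

namespace Pool.Agent.Helper80.Hist

/-- A 1,3-tree: a tree in which every vertex has exactly 1 or exactly 3 neighbours. -/
def IsOneThreeTree {V : Type*} (T : SimpleGraph V) : Prop :=
  T.IsTree ∧ ∀ v, (T.neighborSet v).ncard = 1 ∨ (T.neighborSet v).ncard = 3

/-- Cyclically 4-edge-connected: for every set `F` of at most three edges, any two cycles of
`G - F` lie in the same component of `G - F`. -/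
def CyclicallyFourEdgeConnected {V : Type*} (G : SimpleGraph V) : Prop :=
  ∀ F : Set (Sym2 V), F ⊆ G.edgeSet → F.Finite → F.ncard ≤ 3 →
    ∀ (u v : V) (p : (G.deleteEdges F).Walk u u) (q : (G.deleteEdges F).Walk v v),
      p.IsCycle → q.IsCycle → (G.deleteEdges F).Reachable u v

/-- A proper 3-edge-colouring: edges sharing exactly one endpoint get different colours. -/
def ThreeEdgeColourable {V : Type*} (G : SimpleGraph V) : Prop :=
  ∃ c : Sym2 V → Fin 3, ∀ x y z, G.Adj x y → G.Adj x z → y ≠ z → c s(x, y) ≠ c s(x, z)

/-- A snark: connected, cubic, cyclically 4-edge-connected, girth at least 5, and not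
3-edge-colourable. -/
structure IsSnark {V : Type*} (G : SimpleGraph V) : Prop where
  connected : G.Connected
  cubic : ∀ v, (G.neighborSet v).ncard = 3
  cyc : CyclicallyFourEdgeConnected G
  girth : 5 ≤ G.egirth
  notColourable : ¬ ThreeEdgeColourable G

/-- `H` is a Hist of `G`: a spanning tree without vertices of degree 2. -/
structure IsHist {V : Type*} (G H : SimpleGraph V) : Prop where
  sub : H ≤ G
  tree : H.IsTree
  deg : ∀ v, (H.neighborSet v).ncard ≠ 2

/-- number of leaves of a plain binary tree -/
def Bin.n : Bin → ℕ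
  | .leaf => 1
  | .node l r => l.n + r.n

/-- `Sub b' b` : `b'` is a subtree of `b` -/
inductive Sub : Bin → Bin → Prop
  | refl (b : Bin) : Sub b b
  | left {b l : Bin} (r : Bin) : Sub b l → Sub b (.node l r)
  | right {b r : Bin} (l : Bin) : Sub b r → Sub b (.node l r)

/-- Embedding of a pattern, root to root; protected edges are not subdivided. -/
def EmbR : LT Unit → Bin → Prop
  | .leaf _, b => b = .leaf
  | .node _ pl pr l r, b => ∃ l' r', (b = .node l' r' ∨ b = .node r' l') ∧
      (if pl then EmbR l l' else ∃ l'', Sub l'' l' ∧ EmbR l l'') ∧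
      (if pr then EmbR r r' else ∃ r'', Sub r'' r' ∧ EmbR r r'')

def EmbE (α : LT Unit) (b : Bin) : Prop := ∃ b', Sub b' b ∧ EmbR α b'

/-- the support of a planted labelled tree with root leaf `0` -/
def supp (t : LT ℕ) : Finset ℕ := (0 :: t.labels).toFinset

end Pool.Agent.Helper80.Hist
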