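import Pool.Agent.Helper80.Hist.Core

namespace Pool.Agent.Helper80.Hist

open Finset

/-- no triangles -/
def NT (G : SimpleGraph ℕ) : Prop := ∀ x y z, G.Adj x y → G.Adj y z → G.Adj x z → False

/-- no 4-cycles -/
def N4 (G : SimpleGraph ℕ) : Prop :=
  ∀ x y z w, G.Adj x y → G.Adj y z → G.Adj z w → G.Adj w x → x = z ∨ y = w

lemma ins_swap (G : SimpleGraph ℕ) (p q c d r w : ℕ) :
    ins G p q c d r w = ins G c d p q w r := by
  ext x y
  simp only [ins]
  have e : Eq2 x y w r ↔ Eq2 x y r w := by unfold Eq2; tauto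
  rw [e]
  tauto

structure Far (G : SimpleGraph ℕ) (p q c d : ℕ) : Prop where
  pc : ¬ G.Adj p c
  pd : ¬ G.Adj p d
  qc : ¬ G.Adj q c
  qd : ¬ G.Adj q d

section
variable {A : Finset ℕ} {G : SimpleGraph ℕ} {p q c d r w : ℕ}

lemma Fresh.swap (F : Fresh A G p q c d r w) : Fresh A G c d p q w r :=
  ⟨F.cd, F.pq, F.pc.symm, F.qc.symm, F.pd.symm, F.qd.symm, F.wA, F.rA, F.rw.symm⟩

lemma Far.swap (F : Far G p q c d) : Far G c d p q :=
  ⟨fun h => F.pc h.symm, fun h => F.qc h.symm, fun h => F.pd h.symm, fun h => F.qd h.symm⟩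

lemma adjR (hs : ∀ x y, G.Adj x y → x ∈ A) (F : Fresh A G p q c d r w) (x : ℕ) :
    (ins G p q c d r w).Adj r x ↔ (x = p ∨ x = q ∨ x = w) := by
  have hp := hs _ _ F.pq
  have hq := hs _ _ F.pq.symm
  have hc := hs _ _ F.cd
  have hd := hs _ _ F.cd.symm
  have rp : r ≠ p := fun h => F.rA (h ▸ hp)
  have rq : r ≠ q := fun h => F.rA (h ▸ hq)
  have rc : r ≠ c := fun h => F.rA (h ▸ hc)
  have rd : r ≠ d := fun h => F.rA (h ▸ hd)
  have rw' := F.rw
  have nr : ∀ z, ¬ G.Adj r z := fun z h => F.rA (hs _ _ h)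
  have h1 : x = p → r ≠ x := fun h => h ▸ rp
  have h2 : x = q → r ≠ x := fun h => h ▸ rq
  have h3 : x = w → r ≠ x := fun h => h ▸ rw'
  simp only [ins, Eq2]
  simp [rp, rq, rc, rd, rw', nr]
  tauto

lemma adjW (hs : ∀ x y, G.Adj x y → x ∈ A) (F : Fresh A G p q c d r w) (x : ℕ) :
    (ins G p q c d r w).Adj w x ↔ (x = c ∨ x = d ∨ x = r) := by
  rw [ins_swap]; exact adjR hs F.swap x

lemma adjO {x y : ℕ} (h : (ins G p q c d r w).Adj x y) (xr : x ≠ r) (xw : x ≠ w) (yr : y ≠ r)
    (yw : y ≠ w) : G.Adj x y ∧ ¬ Eq2 x y p q ∧ ¬ Eq2 x y c d := by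
  rcases h with h | h
  · exact h
  · exfalso
    simp only [Eq2] at h
    tauto

lemma adjO' {x y : ℕ} (h : G.Adj x y) (h1 : ¬ Eq2 x y p q) (h2 : ¬ Eq2 x y c d) :
    (ins G p q c d r w).Adj x y := Or.inl ⟨h, h1, h2⟩

lemma tri_r (hs : ∀ x y, G.Adj x y → x ∈ A) (F : Fresh A G p q c d r w)
    {y z : ℕ} (h1 : (ins G p q c d r w).Adj r y) (h2 : (ins G p q c d r w).Adj r z)
    (h3 : (ins G p q c d r w).Adj y z) : False := by
  have hp := hs _ _ F.pq
  have hq := hs _ _ F.pq.symm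
  have rp : p ≠ r := fun h => F.rA (h ▸ hp)
  have rq : q ≠ r := fun h => F.rA (h ▸ hq)
  have wp : p ≠ w := fun h => F.wA (h ▸ hp)
  have wq : q ≠ w := fun h => F.wA (h ▸ hq)
  have kpq : ¬ (ins G p q c d r w).Adj p q := fun h =>
    (adjO h rp wp rq wq).2.1 (Or.inl ⟨rfl, rfl⟩)
  have kpw : ¬ (ins G p q c d r w).Adj w p := fun h => by
    rw [adjW hs F] at h
    rcases h with h | h | h
    · exact F.pc h
    · exact F.pd h
    · exact rp h
  have kqw : ¬ (ins G p q c d r w).Adj w q := fun h => by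
    rw [adjW hs F] at h
    rcases h with h | h | h
    · exact F.qc h
    · exact F.qd h
    · exact rq h
  rw [adjR hs F] at h1 h2
  rcases h1 with rfl | rfl | rfl <;> rcases h2 with rfl | rfl | rfl <;>
    first
    | exact h3.ne rfl
    | exact kpq h3
    | exact kpq h3.symm
    | exact kpw h3
    | exact kpw h3.symm
    | exact kqw h3
    | exact kqw h3.symm

lemma NT.ins (hs : ∀ x y, G.Adj x y → x ∈ A) (F : Fresh A G p q c d r w) (h : NT G) :
    NT (ins G p q c d r w) := by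
  have T1 : ∀ y z, (Hist.ins G p q c d r w).Adj r y → (Hist.ins G p q c d r w).Adj r z →
      (Hist.ins G p q c d r w).Adj y z → False := fun y z a b e => tri_r hs F a b e
  have T2 : ∀ y z, (Hist.ins G p q c d r w).Adj w y → (Hist.ins G p q c d r w).Adj w z →
      (Hist.ins G p q c d r w).Adj y z → False := by
    rw [ins_swap]; exact fun y z a b e => tri_r hs F.swap a b e
  intro x y z h1 h2 h3
  by_cases xr : x = r
  · subst xr; exact T1 _ _ h1 h3 h2
  by_cases yr : y = r
  · subst yr; exact T1 _ _ h1.symm h2 h3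
  by_cases zr : z = r
  · subst zr; exact T1 _ _ h2.symm h3.symm h1.symm
  by_cases xw : x = w
  · subst xw; exact T2 _ _ h1 h3 h2
  by_cases yw : y = w
  · subst yw; exact T2 _ _ h1.symm h2 h3
  by_cases zw : z = w
  · subst zw; exact T2 _ _ h2.symm h3.symm h1.symm
  exact h x y z (adjO h1 xr xw yr yw).1 (adjO h2 yr yw zr zw).1 (adjO h3 xr xw zr zw).1

lemma quad_r (hs : ∀ x y, G.Adj x y → x ∈ A) (F : Fresh A G p q c d r w) (Fa : Far G p q c d)
    (hT : NT G) {y z v : ℕ} (h1 : (ins G p q c d r w).Adj r y) (h2 : (ins G p q c d r w).Adj y z)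
    (h3 : (ins G p q c d r w).Adj z v) (h4 : (ins G p q c d r w).Adj v r) : r = z ∨ y = v := by
  by_contra hcon
  push Not at hcon
  obtain ⟨zr, yv⟩ := hcon
  have hp := hs _ _ F.pq
  have hq := hs _ _ F.pq.symm
  have rp : p ≠ r := fun h => F.rA (h ▸ hp)
  have rq : q ≠ r := fun h => F.rA (h ▸ hq)
  have wp : p ≠ w := fun h => F.wA (h ▸ hp)
  have wq : q ≠ w := fun h => F.wA (h ▸ hq)
  have hc := hs _ _ F.cd
  have hd := hs _ _ F.cd.symm
  have rc : c ≠ r := fun h => F.rA (h ▸ hc)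
  have rd : d ≠ r := fun h => F.rA (h ▸ hd)
  have wc : c ≠ w := fun h => F.wA (h ▸ hc)
  have wd : d ≠ w := fun h => F.wA (h ▸ hd)
  have kpw : ¬ (ins G p q c d r w).Adj w p := fun h => by
    rw [adjW hs F] at h
    rcases h with h | h | h
    · exact F.pc h
    · exact F.pd h
    · exact rp h
  have kqw : ¬ (ins G p q c d r w).Adj w q := fun h => by
    rw [adjW hs F] at h
    rcases h with h | h | h
    · exact F.qc h
    · exact F.qd h
    · exact rq h
  -- common neighbours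
  have A1 : ∀ z, z ≠ r → (ins G p q c d r w).Adj p z → (ins G p q c d r w).Adj q z → False := by
    intro z zr a b
    by_cases zw : z = w
    · subst zw; exact kpw a.symm
    · exact hT _ _ _ F.pq (adjO b rq wq zr zw).1 (adjO a rp wp zr zw).1
  have A2 : ∀ z, z ≠ r → (ins G p q c d r w).Adj p z → (ins G p q c d r w).Adj w z → False := by
    intro z zr a b
    rw [adjW hs F] at b
    rcases b with rfl | rfl | b
    · exact Fa.pc (adjO a rp wp rc wc).1
    · exact Fa.pd (adjO a rp wp rd wd).1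
    · exact zr b
  have A3 : ∀ z, z ≠ r → (ins G p q c d r w).Adj q z → (ins G p q c d r w).Adj w z → False := by
    intro z zr a b
    rw [adjW hs F] at b
    rcases b with rfl | rfl | b
    · exact Fa.qc (adjO a rq wq rc wc).1
    · exact Fa.qd (adjO a rq wq rd wd).1
    · exact zr b
  have h4' := h4.symm
  rw [adjR hs F] at h1 h4'
  rcases h1 with rfl | rfl | rfl <;> rcases h4' with rfl | rfl | rfl <;>
    first
    | exact yv rfl
    | exact A1 z zr.symm h2 h3.symm
    | exact A1 z zr.symm h3.symm h2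
    | exact A2 z zr.symm h2 h3.symm
    | exact A2 z zr.symm h3.symm h2
    | exact A3 z zr.symm h2 h3.symm
    | exact A3 z zr.symm h3.symm h2

lemma N4.ins (hs : ∀ x y, G.Adj x y → x ∈ A) (F : Fresh A G p q c d r w) (Fa : Far G p q c d)
    (hT : NT G) (h : N4 G) : N4 (ins G p q c d r w) := by
  have T1 : ∀ y z v, (Hist.ins G p q c d r w).Adj r y → (Hist.ins G p q c d r w).Adj y z →
      (Hist.ins G p q c d r w).Adj z v → (Hist.ins G p q c d r w).Adj v r → r = z ∨ y = v :=
    fun y z v a b e f => quad_r hs F Fa hT a b e f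
  have T2 : ∀ y z v, (Hist.ins G p q c d r w).Adj w y → (Hist.ins G p q c d r w).Adj y z →
      (Hist.ins G p q c d r w).Adj z v → (Hist.ins G p q c d r w).Adj v w → w = z ∨ y = v := by
    rw [ins_swap]; exact fun y z v a b e f => quad_r hs F.swap Fa.swap hT a b e f
  intro x y z v h1 h2 h3 h4
  by_cases xr : x = r
  · subst xr; exact T1 _ _ _ h1 h2 h3 h4
  by_cases yr : y = r
  · subst yr; rcases T1 _ _ _ h2 h3 h4 h1 with h | h
    · exact Or.inr h
    · exact Or.inl h.symm
  by_cases zr : z = r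
  · subst zr; rcases T1 _ _ _ h3 h4 h1 h2 with h | h
    · exact Or.inl h.symm
    · exact Or.inr h.symm
  by_cases vr : v = r
  · subst vr; rcases T1 _ _ _ h4 h1 h2 h3 with h | h
    · exact Or.inr h.symm
    · exact Or.inl h
  by_cases xw : x = w
  · subst xw; exact T2 _ _ _ h1 h2 h3 h4
  by_cases yw : y = w
  · subst yw; rcases T2 _ _ _ h2 h3 h4 h1 with h | h
    · exact Or.inr h
    · exact Or.inl h.symm
  by_cases zw : z = w
  · subst zw; rcases T2 _ _ _ h3 h4 h1 h2 with h | h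
    · exact Or.inl h.symm
    · exact Or.inr h.symm
  by_cases vw : v = w
  · subst vw; rcases T2 _ _ _ h4 h1 h2 h3 with h | h
    · exact Or.inr h.symm
    · exact Or.inl h
  exact h x y z v (adjO h1 xr xw yr yw).1 (adjO h2 yr yw zr zw).1 (adjO h3 zr zw vr vw).1
    (adjO h4 vr vw xr xw).1

end

end Pool.Agent.Helper80.Hist
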