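import Pool.Agent.Helper80.Hist.Cover

/-!
# Every large 1,3-tree is a Hist of a snark
-/

namespace Pool.Agent.Helper80.Hist.Main

open Pool.Agent.Helper80.Hist

/-- Every 1,3-tree with more than `2 ^ 36` vertices is isomorphic to a Hist of a snark. -/
theorem result : ∃ n : ℕ, n ≤ 2 ^ 36 ∧
    ∀ (V : Type*) [Fintype V] (T : SimpleGraph V), IsOneThreeTree T → n < Fintype.card V →
      ∃ (W : Type) (_ : Fintype W) (G H : SimpleGraph W),
        IsSnark G ∧ IsHist G H ∧ Nonempty (H ≃g T) := by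
  refine ⟨2 * FF 30, by decide +kernel, ?_⟩
  intro V _ T hT hV
  obtain ⟨b, hb, hb'⟩ := exists_bin T hT
  obtain ⟨t, ht, G, P, hG⟩ := exists_good b (by omega)
  obtain ⟨e, he⟩ := hb' t ht hG.nd
  have hsupp : supp t = (0 :: t.labels).toFinset := rfl
  let G' : SimpleGraph {x // x ∈ supp t} := G.comap Subtype.val
  let H : SimpleGraph {x // x ∈ supp t} := T.comap e.symm
  have iso : H ≃g T := SimpleGraph.Iso.comap e.symm T
  have hle : H ≤ G' := by
    intro x y h
    have h1 : T.Adj (e.symm x) (e.symm y) := h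
    rw [he, Equiv.apply_symm_apply, Equiv.apply_symm_apply] at h1
    rcases h1 with h1 | h1
    · exact hG.tg _ h1
    · exact (hG.tg _ h1).symm
  have htree : H.IsTree := iso.symm.isTree_iff.mp hT.1
  have hdeg : ∀ v, (H.neighborSet v).ncard ≠ 2 := by
    intro v
    have h1 : (H.neighborSet v).ncard = (T.neighborSet (iso v)).ncard := by
      rw [← Nat.card_coe_set_eq, ← Nat.card_coe_set_eq]
      exact Nat.card_congr (iso.mapNeighborSet v)
    rw [h1]
    rcases hT.2 (iso v) with h | h <;> rw [h] <;> norm_num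
  refine ⟨{x // x ∈ supp t}, inferInstance, G', H, ⟨?_, ?_, ?_, ?_, ?_⟩, ⟨hle, htree, hdeg⟩, ⟨iso⟩⟩
  · exact htree.connected.mono hle
  · exact cubic_of_core hG.core
  · exact cyc4 hG.core
  · exact girth5 G' (fun x y z h1 h2 h3 => hG.nt x y z h1 h2 h3)
      (fun x y z w h1 h2 h3 h4 => by
        rcases hG.n4 x y z w h1 h2 h3 h4 with h | h
        · exact Or.inl (Subtype.ext h)
        · exact Or.inr (Subtype.ext h))
  · exact fun h => hG.unc (col_of hG.core.supp hG.pg h)

end Pool.Agent.Helper80.Hist.Main
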