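import Pool.Agent.Helper80.Hist.Cert

namespace Pool.Agent.Helper80.Hist

open Finset

/-- binary trees with labelled vertices; the flags mark the protected edges -/
inductive LT (X : Type) where
  | leaf (n : X) : LT X
  | node (n : X) (pl pr : Bool) (l r : LT X) : LT X

/-- plain binary trees -/
inductive Bin where
  | leaf : Bin
  | node (l r : Bin) : Bin

namespace LT
variable {X : Type}

def lab : LT X → X
  | leaf n => n
  | node n _ _ _ _ => n

def labels : LT X → List X
  | leaf n => [n]
  | node n _ _ l r => n :: (l.labels ++ r.labels)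

/-- labels except the root -/
def tlabels : LT X → List X
  | leaf _ => []
  | node _ _ _ l r => l.labels ++ r.labels

/-- edges of the planted tree -/
def tedges : X → LT X → List (X × X)
  | u, leaf n => [(u, n)]
  | u, node n _ _ l r => (u, n) :: (tedges n l ++ tedges n r)

/-- edges below the root -/
def inner : LT X → List (X × X)
  | leaf _ => []
  | node n _ _ l r => tedges n l ++ tedges n r

/-- protected edges -/
def pedges : LT X → List (X × X)
  | leaf _ => []
  | node n pl pr l r => (if pl then [(n, l.lab)] else []) ++ ((if pr then [(n, r.lab)] else []) ++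
      (l.pedges ++ r.pedges))

def shape : LT X → Bin
  | leaf _ => Bin.leaf
  | node _ _ _ l r => Bin.node l.shape r.shape

def unl : LT X → LT Unit
  | leaf _ => leaf ()
  | node _ pl pr l r => node () pl pr l.unl r.unl

lemma labels_eq (t : LT X) : t.labels = t.lab :: t.tlabels := by
  cases t <;> rfl

lemma tedges_eq (u : X) (t : LT X) : t.tedges u = (u, t.lab) :: t.inner := by
  cases t <;> rfl

lemma lab_mem (t : LT X) : t.lab ∈ t.labels := by rw [labels_eq]; simp

lemma tlabels_sub (t : LT X) {x : X} (h : x ∈ t.tlabels) : x ∈ t.labels := by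
  rw [labels_eq]; exact List.mem_cons_of_mem _ h

lemma mem_tedges {u : X} {t : LT X} {e : X × X} (h : e ∈ t.tedges u) :
    (e.1 = u ∨ e.1 ∈ t.labels) ∧ e.2 ∈ t.labels := by
  induction t generalizing u with
  | leaf n =>
    simp only [tedges, List.mem_singleton] at h
    subst h; simp [labels]
  | node n pl pr l r ihl ihr =>
    simp only [tedges, List.mem_cons, List.mem_append] at h
    simp only [labels, List.mem_cons, List.mem_append]
    rcases h with rfl | h | h
    · simp
    · obtain ⟨h1, h2⟩ := ihl h
      tauto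
    · obtain ⟨h1, h2⟩ := ihr h
      tauto

lemma mem_inner {t : LT X} {e : X × X} (h : e ∈ t.inner) : e.1 ∈ t.labels ∧ e.2 ∈ t.tlabels := by
  cases t with
  | leaf n => simp [inner] at h
  | node n pl pr l r =>
    simp only [inner, List.mem_append] at h
    simp only [labels, tlabels, List.mem_cons, List.mem_append]
    rcases h with h | h
    · obtain ⟨h1, h2⟩ := mem_tedges h
      tauto
    · obtain ⟨h1, h2⟩ := mem_tedges h
      tauto

lemma mem_pedges {t : LT X} {e : X × X} (h : e ∈ t.pedges) : e ∈ t.inner := by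
  induction t with
  | leaf n => simp [pedges] at h
  | node n pl pr l r ihl ihr =>
    simp only [pedges, List.mem_append] at h
    show e ∈ tedges n l ++ tedges n r
    rw [tedges_eq n l, tedges_eq n r]
    simp only [List.mem_append, List.mem_cons]
    rcases h with h | h | h | h
    · split_ifs at h
      · simp only [List.mem_singleton] at h; tauto
      · simp at h
    · split_ifs at h
      · simp only [List.mem_singleton] at h; tauto
      · simp at h
    · exact Or.inl (Or.inr (ihl h))
    · exact Or.inr (Or.inr (ihr h))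

/-- every label has a parent edge -/
lemma exists_parent (u : X) (t : LT X) {x : X} (h : x ∈ t.labels) : ∃ y, (y, x) ∈ t.tedges u := by
  induction t generalizing u with
  | leaf n =>
    simp only [labels, List.mem_singleton] at h
    subst h; exact ⟨u, by simp [tedges]⟩
  | node n pl pr l r ihl ihr =>
    simp only [labels, List.mem_cons, List.mem_append] at h
    simp only [tedges, List.mem_cons, List.mem_append]
    rcases h with rfl | h | h
    · exact ⟨u, Or.inl rfl⟩
    · obtain ⟨y, hy⟩ := ihl n h; exact ⟨y, Or.inr (Or.inl hy)⟩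
    · obtain ⟨y, hy⟩ := ihr n h; exact ⟨y, Or.inr (Or.inr hy)⟩

end LT

/-- one level of a context; the hole is the left child -/
structure Frame where
  n : ℕ
  pt : Bool
  ps : Bool
  sib : LT ℕ

def fill : List Frame → LT ℕ → LT ℕ
  | [], t => t
  | f :: fs, t => fill fs (LT.node f.n f.pt f.ps t f.sib)

def up : List Frame → ℕ
  | [] => 0
  | f :: _ => f.n

def prt : List Frame → Bool
  | [] => false
  | f :: _ => f.pt

lemma up_cons (f : Frame) (fs : List Frame) : up (f :: fs) = f.n := rfl
lemma prt_cons (f : Frame) (fs : List Frame) : prt (f :: fs) = f.pt := rfl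
lemma fill_cons (f : Frame) (fs : List Frame) (t : LT ℕ) :
    fill (f :: fs) t = fill fs (LT.node f.n f.pt f.ps t f.sib) := rfl
lemma lab_node {X : Type} (n : X) (pl pr : Bool) (l r : LT X) : (LT.node n pl pr l r).lab = n := rfl

def cedges : List Frame → List (ℕ × ℕ)
  | [] => []
  | f :: fs => cedges fs ++ ((up fs, f.n) :: f.sib.tedges f.n)

def clabels : List Frame → List ℕ
  | [] => []
  | f :: fs => clabels fs ++ (f.n :: f.sib.labels)

def cped : List Frame → List (ℕ × ℕ)
  | [] => []
  | f :: fs => cped fs ++ ((if f.ps then [(f.n, f.sib.lab)] else []) ++ (f.sib.pedges ++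
      (if prt fs then [(up fs, f.n)] else [])))

lemma cped_cons (f : Frame) (fs : List Frame) : cped (f :: fs) = cped fs ++
    ((if f.ps then [(f.n, f.sib.lab)] else []) ++ (f.sib.pedges ++
      (if prt fs then [(up fs, f.n)] else []))) := rfl
lemma cedges_cons (f : Frame) (fs : List Frame) :
    cedges (f :: fs) = cedges fs ++ ((up fs, f.n) :: f.sib.tedges f.n) := rfl
lemma clabels_cons (f : Frame) (fs : List Frame) :
    clabels (f :: fs) = clabels fs ++ (f.n :: f.sib.labels) := rfl
lemma tedges_node {X : Type} (u n : X) (pl pr : Bool) (l r : LT X) :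
    (LT.node n pl pr l r).tedges u = (u, n) :: (l.tedges n ++ r.tedges n) := rfl
lemma labels_node {X : Type} (n : X) (pl pr : Bool) (l r : LT X) :
    (LT.node n pl pr l r).labels = n :: (l.labels ++ r.labels) := rfl
lemma pedges_node {X : Type} (n : X) (pl pr : Bool) (l r : LT X) :
    (LT.node n pl pr l r).pedges = (if pl then [(n, l.lab)] else []) ++
      ((if pr then [(n, r.lab)] else []) ++ (l.pedges ++ r.pedges)) := rfl

lemma mem_ite_single {α : Type} (b : Bool) (x y : α) :
    x ∈ (if b then [y] else []) ↔ (b = true ∧ x = y) := by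
  cases b <;> simp

lemma mem_tedges_fill (fs : List Frame) (t : LT ℕ) (e : ℕ × ℕ) :
    e ∈ (fill fs t).tedges 0 ↔ (e ∈ cedges fs ∨ e ∈ t.tedges (up fs)) := by
  induction fs generalizing t with
  | nil => simp [fill, cedges, up]
  | cons f fs ih =>
    rw [fill_cons, ih, cedges_cons, up_cons, tedges_node]
    simp only [List.mem_append, List.mem_cons]
    tauto

lemma mem_pedges_fill (fs : List Frame) (t : LT ℕ) (e : ℕ × ℕ) :
    e ∈ (fill fs t).pedges ↔
      (e ∈ cped fs ∨ (prt fs = true ∧ e = (up fs, t.lab)) ∨ e ∈ t.pedges) := by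
  induction fs generalizing t with
  | nil => simp [fill, cped, prt]
  | cons f fs ih =>
    rw [fill_cons, ih, cped_cons, up_cons, prt_cons, pedges_node, lab_node]
    simp only [List.mem_append, mem_ite_single]
    tauto

lemma labels_fill (fs : List Frame) (t : LT ℕ) :
    (fill fs t).labels.Perm (clabels fs ++ t.labels) := by
  induction fs generalizing t with
  | nil => simp [fill, clabels]
  | cons f fs ih =>
    rw [fill_cons, clabels_cons]
    refine (ih _).trans ?_
    rw [labels_node, List.append_assoc, List.cons_append]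
    apply List.Perm.append_left
    apply List.Perm.cons
    exact List.perm_append_comm

lemma up_mem (fs : List Frame) : up fs ∈ 0 :: clabels fs := by
  cases fs with
  | nil => simp [up]
  | cons f fs => simp [up_cons, clabels_cons]

lemma mem_cedges {fs : List Frame} {e : ℕ × ℕ} (h : e ∈ cedges fs) :
    e.1 ∈ 0 :: clabels fs ∧ e.2 ∈ clabels fs := by
  induction fs with
  | nil => simp [cedges] at h
  | cons f fs ih =>
    rw [cedges_cons] at h
    rw [clabels_cons]
    simp only [List.mem_append, List.mem_cons] at h ⊢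
    rcases h with h | rfl | h
    · obtain ⟨h1, h2⟩ := ih h
      simp only [List.mem_cons] at h1
      tauto
    · have := up_mem fs
      simp only [List.mem_cons] at this
      simp only
      tauto
    · obtain ⟨h1, h2⟩ := LT.mem_tedges h
      tauto

lemma mem_cped {fs : List Frame} {e : ℕ × ℕ} (h : e ∈ cped fs) : e ∈ cedges fs := by
  induction fs with
  | nil => simp [cped] at h
  | cons f fs ih =>
    rw [cped_cons] at h
    rw [cedges_cons, LT.tedges_eq]
    simp only [List.mem_append, List.mem_cons, mem_ite_single] at h ⊢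
    rcases h with h | h | h | h
    · exact Or.inl (ih h)
    · exact Or.inr (Or.inr (Or.inl h.2))
    · exact Or.inr (Or.inr (Or.inr (LT.mem_pedges h)))
    · exact Or.inr (Or.inl h.2)

/-- proper 3-edge-colourability of a graph -/
def Col (P : SimpleGraph ℕ) : Prop :=
  ∃ c : Sym2 ℕ → Fin 3, ∀ x y z, P.Adj x y → P.Adj x z → y ≠ z → c s(x, y) ≠ c s(x, z)

/-- tree adjacency -/
def TA (t : LT ℕ) (x y : ℕ) : Prop := (x, y) ∈ t.tedges 0 ∨ (y, x) ∈ t.tedges 0

structure GoodW (t : LT ℕ) (G P : SimpleGraph ℕ) : Prop where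
  nd : (0 :: t.labels).Nodup
  core : Core (0 :: t.labels).toFinset G
  nt : NT G
  n4 : N4 G
  pg : ∀ x y, P.Adj x y → G.Adj x y
  unc : ¬ Col P
  tg : ∀ e ∈ t.tedges 0, G.Adj e.1 e.2
  pt : ∀ e ∈ t.tedges 0, P.Adj e.1 e.2 → e ∈ t.pedges
  free : ∃ X : Finset (ℕ × ℕ), 26 ≤ X.card ∧
    ∀ e ∈ X, G.Adj e.1 e.2 ∧ ¬ TA t e.1 e.2 ∧ ¬ P.Adj e.1 e.2

lemma GoodW.congr {t t' : LT ℕ} {G P : SimpleGraph ℕ} (h : GoodW t G P)
    (h1 : ∀ e, e ∈ t.tedges 0 ↔ e ∈ t'.tedges 0) (h2 : ∀ e, e ∈ t.pedges → e ∈ t'.pedges)
    (h3 : t.labels.Perm t'.labels) : GoodW t' G P := by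
  obtain ⟨a1, a2, a3, a4, a5, a6, a7, a8, X, a9, a10⟩ := h
  have h4 : (0 :: t.labels).toFinset = (0 :: t'.labels).toFinset := by
    ext x; simp only [List.mem_toFinset, List.mem_cons, h3.mem_iff]
  refine ⟨(h3.cons 0).nodup_iff.mp a1, h4 ▸ a2, a3, a4, a5, a6, ?_, ?_, X, a9, ?_⟩
  · intro e he; exact a7 e ((h1 e).mpr he)
  · intro e he h; exact h2 e (a8 e ((h1 e).mpr he) h)
  · intro e he
    obtain ⟨b1, b2, b3⟩ := a10 e he
    refine ⟨b1, fun h => b2 ?_, b3⟩
    rcases h with h | h
    · exact Or.inl ((h1 _).mpr h)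
    · exact Or.inr ((h1 _).mpr h)

lemma GoodW.swap {fs : List Frame} {n : ℕ} {pl pr : Bool} {l r : LT ℕ} {G P : SimpleGraph ℕ}
    (h : GoodW (fill fs (.node n pl pr l r)) G P) : GoodW (fill fs (.node n pr pl r l)) G P := by
  apply h.congr
  · intro e
    rw [mem_tedges_fill, mem_tedges_fill, tedges_node, tedges_node]
    simp only [List.mem_cons, List.mem_append]
    tauto
  · intro e
    rw [mem_pedges_fill, mem_pedges_fill, pedges_node, pedges_node, lab_node, lab_node]
    simp only [List.mem_append]
    tauto
  · refine (labels_fill _ _).trans (List.Perm.trans ?_ (labels_fill _ _).symm)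
    apply List.Perm.append_left
    rw [labels_node, labels_node]
    apply List.Perm.cons
    exact List.perm_append_comm

end Pool.Agent.Helper80.Hist
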