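import Pool.Agent.Helper80.Hist.Tree

namespace Pool.Agent.Helper80.Hist

/-! ### Checker for non-colourability -/

/-- The six-cycle `a b c a' b' c'` with the cherries `x : b, b'` and `y : c, c'`, attached at
`a` to `u` and at `a'` to `v`. -/
structure YG where
  a : ℕ
  b : ℕ
  c : ℕ
  a' : ℕ
  b' : ℕ
  c' : ℕ
  x : ℕ
  y : ℕ
  u : ℕ
  v : ℕ

def all3 (f : Fin 3 → Bool) : Bool := f 0 && (f 1 && f 2)

lemma all3_iff (f : Fin 3 → Bool) : all3 f = true ↔ ∀ x, f x = true := by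
  simp only [all3, Bool.and_eq_true]
  constructor
  · rintro ⟨h0, h1, h2⟩ x
    fin_cases x <;> assumption
  · intro h; exact ⟨h 0, h 1, h 2⟩

def imp (p : Bool) (q : Bool) : Bool := if p then q else true

lemma imp_iff (p q : Bool) : imp p q = true ↔ (p = true → q = true) := by
  cases p <;> simp [imp]

lemma y_bool : (all3 fun e1 => all3 fun e2 => imp (e1 != e2) <| all3 fun f2 =>
    imp (e1 != f2 && e2 != f2) <| all3 fun e3 => imp (e2 != e3) <| all3 fun f3 =>
    imp (e2 != f3 && e3 != f3) <| all3 fun e4 => imp (e3 != e4) <| all3 fun g' =>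
    imp (e3 != g' && e4 != g') <| all3 fun e5 => imp (e4 != e5) <| all3 fun f5 =>
    imp (e4 != f5 && e5 != f5 && f2 != f5) <| all3 fun e6 => imp (e5 != e6 && e6 != e1) <|
    all3 fun f6 => imp (e5 != f6 && e6 != f6 && f3 != f6) <| all3 fun g =>
    imp (e6 != g && e1 != g) (g == g')) = true := by
  decide +kernel

lemma y_fin (e1 e2 f2 : Fin 3) (h1 : e1 ≠ e2) (h2 : e1 ≠ f2) (h3 : e2 ≠ f2) (e3 f3 : Fin 3)
    (h4 : e2 ≠ e3) (h5 : e2 ≠ f3) (h6 : e3 ≠ f3) (e4 g' : Fin 3) (h7 : e3 ≠ e4) (h8 : e3 ≠ g')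
    (h9 : e4 ≠ g') (e5 f5 : Fin 3) (h10 : e4 ≠ e5) (h11 : e4 ≠ f5) (h12 : e5 ≠ f5) (h13 : f2 ≠ f5)
    (e6 f6 : Fin 3) (h14 : e5 ≠ e6) (h15 : e5 ≠ f6) (h16 : e6 ≠ f6) (h17 : f3 ≠ f6)
    (h18 : e6 ≠ e1) (g : Fin 3) (h19 : e6 ≠ g) (h20 : e1 ≠ g) : g = g' := by
  have h := y_bool
  simp only [all3_iff, imp_iff, Bool.and_eq_true, bne_iff_ne, beq_iff_eq, and_imp] at h
  exact h e1 e2 h1 f2 h2 h3 e3 h4 f3 h5 h6 e4 h7 g' h8 h9 e5 h10 f5 h11 h12 h13 e6 h14 h18
    f6 h15 h16 h17 g h19 h20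

def nodupB : List ℕ → Bool
  | [] => true
  | x :: l => !(memN x l) && nodupB l

lemma nodupB_iff (l : List ℕ) : nodupB l = true ↔ l.Nodup := by
  induction l with
  | nil => simp [nodupB]
  | cons x l ih =>
    simp only [nodupB, Bool.and_eq_true, ih, List.nodup_cons, Bool.not_eq_true', ← Bool.not_eq_true,
      memN_iff]

def yOK (C : List (ℕ × ℕ)) (g : YG) : Bool :=
  mem2 g.a g.b C && mem2 g.b g.c C && mem2 g.c g.a' C && mem2 g.a' g.b' C && mem2 g.b' g.c' C &&
    mem2 g.c' g.a C && mem2 g.x g.b C && mem2 g.x g.b' C && mem2 g.y g.c C && mem2 g.y g.c' C &&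
    mem2 g.a g.u C && mem2 g.a' g.v C &&
    nodupB [g.a, g.b, g.c, g.a', g.b', g.c', g.x, g.y, g.u] &&
    nodupB [g.a, g.b, g.c, g.a', g.b', g.c', g.x, g.y, g.v]

lemma adj_of_mem2 {C : List (ℕ × ℕ)} {x y : ℕ} (h : mem2 x y C = true) (hn : x ≠ y) :
    (ofList C).Adj x y := ⟨hn, (mem2_iff x y C).mp h⟩

theorem y_lemma {C : List (ℕ × ℕ)} {g : YG} (h : yOK C g = true) (c : Sym2 ℕ → Fin 3)
    (hc : ∀ x y z, (ofList C).Adj x y → (ofList C).Adj x z → y ≠ z → c s(x, y) ≠ c s(x, z)) :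
    c s(g.a, g.u) = c s(g.a', g.v) := by
  obtain ⟨a, b, d, a', b', d', x, y, u, v⟩ := g
  simp only [yOK, Bool.and_eq_true, nodupB_iff, List.nodup_cons, List.mem_cons, List.not_mem_nil,
    not_or, or_false, List.nodup_nil, and_true, not_false_eq_true] at h
  obtain ⟨⟨⟨⟨⟨⟨⟨⟨⟨⟨⟨⟨⟨h1, h2⟩, h3⟩, h4⟩, h5⟩, h6⟩, h7⟩, h8⟩, h9⟩, h10⟩, h11⟩, h12⟩, n1⟩, n2⟩ := h
  obtain ⟨⟨ab, ad, aa', ab', ad', ax, ay, au⟩, ⟨bd, ba', bb', bd', bx, by_, bu⟩,
    ⟨da', db', dd', dx, dy, du⟩, ⟨a'b', a'd', a'x, a'y, a'u⟩, ⟨b'd', b'x, b'y, b'u⟩,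
    ⟨d'x, d'y, d'u⟩, ⟨xy, xu⟩, yu⟩ := n1
  obtain ⟨⟨-, -, -, -, -, -, -, av⟩, ⟨-, -, -, -, -, -, bv⟩, ⟨-, -, -, -, -, dv⟩,
    ⟨-, -, -, -, a'v⟩, ⟨-, -, -, b'v⟩, ⟨-, -, d'v⟩, ⟨-, xv⟩, yv⟩ := n2
  have k1 := adj_of_mem2 h1 ab
  have k2 := adj_of_mem2 h2 bd
  have k3 := adj_of_mem2 h3 da'
  have k4 := adj_of_mem2 h4 a'b'
  have k5 := adj_of_mem2 h5 b'd'
  have k6 := adj_of_mem2 h6 (Ne.symm ad')
  have k7 := adj_of_mem2 h7 (Ne.symm bx)
  have k8 := adj_of_mem2 h8 (Ne.symm b'x)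
  have k9 := adj_of_mem2 h9 (Ne.symm dy)
  have k10 := adj_of_mem2 h10 (Ne.symm d'y)
  have k11 := adj_of_mem2 h11 au
  have k12 := adj_of_mem2 h12 a'v
  -- colours
  have D : ∀ s p q : ℕ, (ofList C).Adj s p → (ofList C).Adj s q → p ≠ q →
    c s(s, p) ≠ c s(s, q) := hc
  have e1 := D b a d k1.symm k2 ad
  have e2 := D b a x k1.symm k7.symm ax
  have e3 := D b d x k2 k7.symm dx
  have e4 := D d b a' k2.symm k3 ba'
  have e5 := D d b y k2.symm k9.symm by_
  have e6 := D d a' y k3 k9.symm a'y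
  have e7 := D a' d b' k3.symm k4 db'
  have e8 := D a' d v k3.symm k12 dv
  have e9 := D a' b' v k4 k12 b'v
  have e10 := D b' a' d' k4.symm k5 a'd'
  have e11 := D b' a' x k4.symm k8.symm a'x
  have e12 := D b' d' x k5 k8.symm d'x
  have e13 := D x b b' k7 k8 bb'
  have e14 := D d' b' a k5.symm k6 (Ne.symm ab')
  have e15 := D d' b' y k5.symm k10.symm b'y
  have e16 := D d' a y k6 k10.symm ay
  have e17 := D y d d' k9 k10 dd'
  have e18 := D a d' b k6.symm k1 (Ne.symm bd')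
  have e19 := D a d' u k6.symm k11 d'u
  have e20 := D a b u k1 k11 bu
  simp only [Sym2.eq_swap (a := b) (b := a), Sym2.eq_swap (a := d) (b := b),
    Sym2.eq_swap (a := a') (b := d), Sym2.eq_swap (a := b') (b := a'),
    Sym2.eq_swap (a := d') (b := b'), Sym2.eq_swap (a := a) (b := d'),
    Sym2.eq_swap (a := x) (b := b), Sym2.eq_swap (a := x) (b := b'),
    Sym2.eq_swap (a := y) (b := d), Sym2.eq_swap (a := y) (b := d')] at *
  exact y_fin _ _ _ e1 e2 e3 _ _ e4 e5 e6 _ _ e7 e8 e9 _ _ e10 e11 e12 e13 _ _ e14 e15 e16 e17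
    e18 _ e19 e20

/-- an edge together with the positions (most recent first) of earlier edges which have a
different colour or the same colour -/
structure It where
  x : ℕ
  y : ℕ
  ne : List ℕ
  eq : List ℕ

def getN : List ℕ → ℕ → ℕ
  | [], _ => 0
  | a :: _, 0 => a
  | _ :: l, k + 1 => getN l k

def getP : List (ℕ × ℕ) → ℕ → Option (ℕ × ℕ)
  | [], _ => none
  | a :: _, 0 => some a
  | _ :: l, k + 1 => getP l k

def allN (f : ℕ → Bool) : List ℕ → Bool
  | [] => true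
  | a :: l => f a && allN f l

lemma allN_iff (f : ℕ → Bool) (l : List ℕ) : allN f l = true ↔ ∀ x ∈ l, f x = true := by
  induction l with
  | nil => simp [allN]
  | cons a l ih => simp [allN, ih]

def okc (it : It) (l : List ℕ) (c : ℕ) : Bool :=
  allN (fun k => !(Nat.beq (getN l k) c)) it.ne && allN (fun k => Nat.beq (getN l k) c) it.eq

/-- exhaustive search; `true` if a solution may exist -/
def search : List It → List ℕ → Bool
  | [], _ => true
  | it :: its, l => (okc it l 0 && search its (0 :: l)) || ((okc it l 1 && search its (1 :: l)) ||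
      (okc it l 2 && search its (2 :: l)))

/-- two edges of `C` sharing exactly one endpoint -/
def share1 (C : List (ℕ × ℕ)) (s a s' b : ℕ) : Bool :=
  Nat.beq s s' && !(Nat.beq a b) && !(Nat.beq s a) && !(Nat.beq s b) && mem2 s a C && mem2 s b C

def share (C : List (ℕ × ℕ)) (e f : ℕ × ℕ) : Bool :=
  share1 C e.1 e.2 f.1 f.2 || share1 C e.2 e.1 f.1 f.2 || share1 C e.1 e.2 f.2 f.1 ||
    share1 C e.2 e.1 f.2 f.1

/-- equal by a gadget -/
def eqY (Ys : List YG) (e f : ℕ × ℕ) : Bool :=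
  match Ys with
  | [] => false
  | g :: l => (Nat.beq g.a e.1 && Nat.beq g.u e.2 && Nat.beq g.a' f.1 && Nat.beq g.v f.2) ||
      (Nat.beq g.a f.1 && Nat.beq g.u f.2 && Nat.beq g.a' e.1 && Nat.beq g.v e.2) || eqY l e f

def validIt (C : List (ℕ × ℕ)) (Ys : List YG) (es : List (ℕ × ℕ)) (it : It) : Bool :=
  allN (fun k => match getP es k with
    | none => false
    | some f => share C (it.x, it.y) f) it.ne &&
  allN (fun k => match getP es k with
    | none => false
    | some f => eqY Ys (it.x, it.y) f) it.eq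

def valid (C : List (ℕ × ℕ)) (Ys : List YG) : List It → List (ℕ × ℕ) → Bool
  | [], _ => true
  | it :: its, es => validIt C Ys es it && valid C Ys its ((it.x, it.y) :: es)

lemma share1_ne {C : List (ℕ × ℕ)} {s a s' b : ℕ} (h : share1 C s a s' b = true)
    (c : Sym2 ℕ → Fin 3)
    (hc : ∀ x y z, (ofList C).Adj x y → (ofList C).Adj x z → y ≠ z → c s(x, y) ≠ c s(x, z)) :
    c s(s, a) ≠ c s(s', b) := by
  simp only [share1, Bool.and_eq_true, Bool.not_eq_true', ← Bool.not_eq_true, beqN] at h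
  obtain ⟨⟨⟨⟨⟨h1, h2⟩, h3⟩, h4⟩, h5⟩, h6⟩ := h
  subst h1
  exact hc s a b (adj_of_mem2 h5 h3) (adj_of_mem2 h6 h4) h2

lemma share_ne {C : List (ℕ × ℕ)} {e f : ℕ × ℕ} (h : share C e f = true)
    (c : Sym2 ℕ → Fin 3)
    (hc : ∀ x y z, (ofList C).Adj x y → (ofList C).Adj x z → y ≠ z → c s(x, y) ≠ c s(x, z)) :
    c s(e.1, e.2) ≠ c s(f.1, f.2) := by
  simp only [share, Bool.or_eq_true] at h
  rcases h with ((h | h) | h) | h
  · exact share1_ne h c hc
  · rw [Sym2.eq_swap (a := e.1)]; exact share1_ne h c hc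
  · rw [Sym2.eq_swap (a := f.1)]; exact share1_ne h c hc
  · rw [Sym2.eq_swap (a := e.1), Sym2.eq_swap (a := f.1)]; exact share1_ne h c hc

lemma eqY_eq {C : List (ℕ × ℕ)} {Ys : List YG} (hY : ∀ g ∈ Ys, yOK C g = true) {e f : ℕ × ℕ}
    (h : eqY Ys e f = true) (c : Sym2 ℕ → Fin 3)
    (hc : ∀ x y z, (ofList C).Adj x y → (ofList C).Adj x z → y ≠ z → c s(x, y) ≠ c s(x, z)) :
    c s(e.1, e.2) = c s(f.1, f.2) := by
  induction Ys with
  | nil => simp [eqY] at h
  | cons g l ih =>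
    simp only [eqY, Bool.or_eq_true, Bool.and_eq_true, beqN] at h
    rcases h with (⟨⟨⟨h1, h2⟩, h3⟩, h4⟩ | ⟨⟨⟨h1, h2⟩, h3⟩, h4⟩) | h
    · rw [← h1, ← h2, ← h3, ← h4]
      exact y_lemma (hY g (by simp)) c hc
    · rw [← h1, ← h2, ← h3, ← h4]
      exact (y_lemma (hY g (by simp)) c hc).symm
    · exact ih (fun g hg => hY g (by simp [hg])) h

lemma getN_map (c : ℕ × ℕ → ℕ) : ∀ (es : List (ℕ × ℕ)) (k : ℕ) (f : ℕ × ℕ),
    getP es k = some f → getN (es.map c) k = c f
  | [], k, f, h => by simp [getP] at h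
  | a :: l, 0, f, h => by
    simp only [getP, Option.some.injEq] at h
    subst h; rfl
  | a :: l, k + 1, f, h => by
    simp only [getP] at h
    exact getN_map c l k f h

theorem search_sound {C : List (ℕ × ℕ)} {Ys : List YG} (hY : ∀ g ∈ Ys, yOK C g = true)
    (c : Sym2 ℕ → Fin 3)
    (hc : ∀ x y z, (ofList C).Adj x y → (ofList C).Adj x z → y ≠ z → c s(x, y) ≠ c s(x, z)) :
    ∀ (its : List It) (es : List (ℕ × ℕ)), valid C Ys its es = true →
      search its (es.map (fun e => (c s(e.1, e.2)).val)) = true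
  | [], es, _ => rfl
  | it :: its, es, h => by
    simp only [valid, Bool.and_eq_true] at h
    obtain ⟨h1, h2⟩ := h
    have ih := search_sound hY c hc its _ h2
    have h3 : okc it (es.map (fun e => (c s(e.1, e.2)).val)) (c s(it.x, it.y)).val = true := by
      simp only [validIt, Bool.and_eq_true, allN_iff] at h1
      simp only [okc, Bool.and_eq_true, allN_iff]
      constructor
      · intro k hk
        have := h1.1 k hk
        cases hg : getP es k with
        | none => rw [hg] at this; simp at this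
        | some f =>
          rw [hg] at this
          rw [getN_map _ es k f hg]
          have h5 := share_ne this c hc
          simp only [Bool.not_eq_true', ← Bool.not_eq_true, beqN]
          intro h6
          exact h5 (Fin.ext h6.symm)
      · intro k hk
        have := h1.2 k hk
        cases hg : getP es k with
        | none => rw [hg] at this; simp at this
        | some f =>
          rw [hg] at this
          rw [getN_map _ es k f hg, beqN]
          have h5 := eqY_eq hY this c hc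
          rw [← h5]
    rw [List.map_cons] at ih
    simp only [search, Bool.or_eq_true, Bool.and_eq_true]
    generalize hv : c s(it.x, it.y) = v at *
    have : v = 0 ∨ v = 1 ∨ v = 2 := by
      clear ih h3 hv
      revert v; decide
    rcases this with rfl | rfl | rfl
    · exact Or.inl ⟨h3, ih⟩
    · exact Or.inr (Or.inl ⟨h3, ih⟩)
    · exact Or.inr (Or.inr ⟨h3, ih⟩)

def allY (C : List (ℕ × ℕ)) : List YG → Bool
  | [] => true
  | g :: l => yOK C g && allY C l

lemma allY_iff {C : List (ℕ × ℕ)} {Ys : List YG} (h : allY C Ys = true) :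
    ∀ g ∈ Ys, yOK C g = true := by
  induction Ys with
  | nil => simp
  | cons g l ih =>
    simp only [allY, Bool.and_eq_true] at h
    intro g' hg
    rcases List.mem_cons.mp hg with rfl | hg
    · exact h.1
    · exact ih h.2 g' hg

theorem not_col {C : List (ℕ × ℕ)} {Ys : List YG} {its : List It} (hY : allY C Ys = true)
    (hv : valid C Ys its [] = true) (hs : search its [] = false) : ¬ Col (ofList C) := by
  rintro ⟨c, hc⟩
  have := search_sound (allY_iff hY) c hc its [] hv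
  rw [List.map_nil, hs] at this
  exact absurd this (by simp)

end Pool.Agent.Helper80.Hist
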